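import Mathlib

set_option autoImplicit false

/-! Reduced paths in a tree of labels: lists of labels, the head being the end of the path. -/

namespace H63LB

variable {α : Type*}

/-- two labels of adjacent points: they agree as soon as their colours agree -/
def Compat (a b : Bool × α) : Prop := a.1 = b.1 → a = b

theorem Compat.symm {a b : Bool × α} (h : Compat a b) : Compat b a := fun h' => (h h'.symm).symm

open Classical in
/-- move the end of the path to the (adjacent or equal) label `l` -/
noncomputable def push : List (Bool × α) → Bool × α → List (Bool × α)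
  | [], l => [l]
  | [h], l => if l = h then [h] else [l, h]
  | h :: h' :: t, l => if l = h then h :: h' :: t else if l = h' then h' :: t
      else l :: h :: h' :: t

/-- reduced paths -/
def Red : List (Bool × α) → Prop
  | [] => False
  | [_] => True
  | [a, b] => a.1 ≠ b.1
  | a :: b :: c :: t => a.1 ≠ b.1 ∧ a ≠ c ∧ Red (b :: c :: t)

theorem red_cons {a b : Bool × α} {t : List (Bool × α)} (h : Red (a :: b :: t)) : Red (b :: t) := by
  cases t with
  | nil => exact trivial
  | cons c t => exact h.2.2

theorem red_ne {a b : Bool × α} {t : List (Bool × α)} (h : Red (a :: b :: t)) : a.1 ≠ b.1 := by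
  cases t with
  | nil => exact h
  | cons c t => exact h.1

theorem push_self {h : Bool × α} {t : List (Bool × α)} : push (h :: t) h = h :: t := by
  cases t with
  | nil => simp [push]
  | cons c t => simp [push]

/-- the effect of a push -/
theorem push_cases (h : Bool × α) (t : List (Bool × α)) (l : Bool × α) :
    (l = h ∧ push (h :: t) l = h :: t) ∨
    (l ≠ h ∧ ∃ t', t = l :: t' ∧ push (h :: t) l = t) ∨
    (l ≠ h ∧ (∀ t', t ≠ l :: t') ∧ push (h :: t) l = l :: h :: t) := by
  classical
  by_cases hl : l = h
  · left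
    subst hl
    exact ⟨rfl, push_self⟩
  · cases t with
    | nil =>
      right; right
      refine ⟨hl, fun t' => by simp, ?_⟩
      simp [push, hl]
    | cons c t =>
      by_cases hc : l = c
      · right; left
        refine ⟨hl, t, by rw [hc], ?_⟩
        simp only [push, if_neg hl, if_pos hc]
      · right; right
        refine ⟨hl, fun t' he => hc ?_, ?_⟩
        · simp only [List.cons.injEq] at he
          exact he.1.symm
        · simp only [push, if_neg hl, if_neg hc]

theorem red_push {h : Bool × α} {t : List (Bool × α)} {l : Bool × α} (hr : Red (h :: t))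
    (hc : Compat l h) : Red (push (h :: t) l) ∧ ∃ t', push (h :: t) l = l :: t' := by
  rcases push_cases h t l with ⟨rfl, h2⟩ | ⟨h1, t', rfl, h2⟩ | ⟨h1, h2, h3⟩
  · rw [h2]
    exact ⟨hr, t, rfl⟩
  · rw [h2]
    exact ⟨red_cons hr, t', rfl⟩
  · rw [h3]
    refine ⟨?_, h :: t, rfl⟩
    have hne : l.1 ≠ h.1 := fun he => h1 (hc he)
    cases t with
    | nil => exact hne
    | cons c t =>
      refine ⟨hne, fun he => h2 t (by rw [he]), hr⟩

theorem push_back {h : Bool × α} {t : List (Bool × α)} {l : Bool × α} (hr : Red (h :: t)) :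
    push (push (h :: t) l) h = h :: t := by
  rcases push_cases h t l with ⟨rfl, h2⟩ | ⟨h1, t', rfl, h2⟩ | ⟨h1, h2, h3⟩
  · rw [h2, push_self]
  · rw [h2]
    rcases push_cases l t' h with ⟨h3, _⟩ | ⟨_, t'', h3, _⟩ | ⟨_, _, h5⟩
    · exact absurd h3.symm h1
    · subst h3
      exact absurd rfl hr.2.1
    · exact h5
  · rw [h3]
    rcases push_cases l (h :: t) h with ⟨h4, _⟩ | ⟨_, t'', h4, h5⟩ | ⟨_, h4, _⟩
    · exact absurd h4.symm h1
    · exact h5
    · exact absurd rfl (h4 t)

/-- two ways around a square -/
theorem push_square {s : List (Bool × α)} {h l₁ l₂ l₃ : Bool × α} (hs : ∃ t, s = h :: t)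
    (hr : Red s) (h1 : Compat l₁ h) (h2 : Compat l₂ h) (h3 : Compat l₃ h)
    (h13 : Compat l₁ l₃) (h23 : Compat l₂ l₃) : push (push s l₁) l₃ = push (push s l₂) l₃ := by
  obtain ⟨t, rfl⟩ := hs
  have key : ∀ l : Bool × α, Compat l h → Compat l l₃ → l ≠ h →
      push (push (h :: t) l) l₃ = push (h :: t) l₃ := by
    intro l hl hl3 hne
    by_cases he : l₃ = h
    · rw [he, push_back hr, push_self]
    · have h3l : l₃ = l := by
        refine (hl3 ?_).symm
        have a1 : l.1 ≠ h.1 := fun e => hne (hl e)
        have a2 : l₃.1 ≠ h.1 := fun e => he (h3 e)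
        revert a1 a2
        cases l.1 <;> cases l₃.1 <;> cases h.1 <;> simp
      subst h3l
      obtain ⟨t', ht'⟩ := (red_push hr hl).2
      rw [ht', push_self]
  by_cases e1 : l₁ = h
  · by_cases e2 : l₂ = h
    · rw [e1, e2]
    · rw [key l₂ h2 h23 e2, e1, push_self]
  · by_cases e2 : l₂ = h
    · rw [key l₁ h1 h13 e1, e2, push_self]
    · rw [key l₁ h1 h13 e1, key l₂ h2 h23 e2]

/-- the last `n` entries -/
def suf (n : ℕ) (s : List (Bool × α)) : List (Bool × α) := s.drop (s.length - n)

theorem suf_length {n : ℕ} {s : List (Bool × α)} (h : n ≤ s.length) : (suf n s).length = n := by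
  unfold suf
  rw [List.length_drop]
  omega

theorem suf_self {n : ℕ} {s : List (Bool × α)} (h : s.length = n) : suf n s = s := by
  unfold suf
  rw [h, Nat.sub_self, List.drop_zero]

theorem suf_cons {n : ℕ} {a : Bool × α} {s : List (Bool × α)} (h : n ≤ s.length) :
    suf n (a :: s) = suf n s := by
  unfold suf
  have : (a :: s).length - n = (s.length - n) + 1 := by
    rw [List.length_cons]
    omega
  rw [this, List.drop_succ_cons]

theorem suf_suf {n m : ℕ} {s : List (Bool × α)} (h : n ≤ m) (hm : m ≤ s.length) :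
    suf n (suf m s) = suf n s := by
  unfold suf
  rw [List.drop_drop, List.length_drop]
  congr 1
  omega

theorem push_len {h : Bool × α} {t : List (Bool × α)} (l : Bool × α) :
    (push (h :: t) l).length ≤ (h :: t).length + 1 ∧
    (h :: t).length ≤ (push (h :: t) l).length + 1 := by
  rcases push_cases h t l with ⟨rfl, h2⟩ | ⟨h1, t', rfl, h2⟩ | ⟨h1, h2, h3⟩
  · rw [h2]; omega
  · rw [h2]; simp
  · rw [h3]; simp

theorem push_suf {h : Bool × α} {t : List (Bool × α)} {l : Bool × α} {n : ℕ}
    (h1 : n ≤ (h :: t).length) (h2 : n ≤ (push (h :: t) l).length) :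
    suf n (push (h :: t) l) = suf n (h :: t) := by
  rcases push_cases h t l with ⟨rfl, e⟩ | ⟨_, t', rfl, e⟩ | ⟨_, _, e⟩
  · rw [e]
  · rw [e] at h2 ⊢
    rw [suf_cons h2]
  · rw [e, suf_cons h1]

end H63LB
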