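import Mathlib
import Pool.Agent.H63LB.Push

set_option autoImplicit false

/-! Lifting a labelling of the two-skeleton of the cubical lattice to a tree. -/

namespace H63LB

open Function

variable {d : ℕ} {α : Type*} {L : ℕ}

/-- at most two coordinates are not divisible by `L` -/
def Good (L : ℕ) (x : Fin d → ℕ) : Prop := ∃ i j : Fin d, ∀ l, l ≠ i → l ≠ j → L ∣ x l

def dn (x : Fin d → ℕ) (i : Fin d) : Fin d → ℕ := update x i (x i - 1)

theorem dn_same (x : Fin d → ℕ) (i : Fin d) : dn x i i = x i - 1 := update_self ..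

theorem dn_ne (x : Fin d → ℕ) {i l : Fin d} (h : l ≠ i) : dn x i l = x l := update_of_ne h ..

theorem dn_comm (x : Fin d → ℕ) {i j : Fin d} (h : i ≠ j) : dn (dn x i) j = dn (dn x j) i := by
  funext l
  by_cases hi : l = i
  · subst hi
    rw [dn_ne _ h, dn_same, dn_same, dn_ne _ h]
  · by_cases hj : l = j
    · subst hj
      rw [dn_same, dn_ne _ hi, dn_ne _ hi, dn_same]
    · rw [dn_ne _ hj, dn_ne _ hi, dn_ne _ hi, dn_ne _ hj]

theorem sum_dn (x : Fin d → ℕ) {i : Fin d} (h : x i ≠ 0) : (∑ l, dn x i l) + 1 = ∑ l, x l := by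
  classical
  unfold dn
  rw [Finset.sum_update_of_mem (Finset.mem_univ i), Finset.sdiff_singleton_eq_erase,
    ← Finset.add_sum_erase Finset.univ x (Finset.mem_univ i)]
  omega

open Classical in
/-- the coordinate which is decreased first -/
noncomputable def pc (L : ℕ) (x : Fin d → ℕ) (h : ∃ i, x i ≠ 0) : Fin d :=
  if h' : ∃ i, ¬ L ∣ x i then h'.choose else h.choose

theorem pc_spec (x : Fin d → ℕ) (h : ∃ i, x i ≠ 0) :
    x (pc L x h) ≠ 0 ∧ ((¬ L ∣ x (pc L x h)) ∨ ∀ l, L ∣ x l) := by
  unfold pc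
  split_ifs with h'
  · refine ⟨fun he => ?_, Or.inl h'.choose_spec⟩
    have := h'.choose_spec
    rw [he] at this
    exact this (dvd_zero L)
  · push Not at h'
    exact ⟨h.choose_spec, Or.inr h'⟩

open Classical in
/-- the lift, with fuel -/
noncomputable def Sn (L : ℕ) (p : (Fin d → ℕ) → Bool × α) : ℕ → (Fin d → ℕ) → List (Bool × α)
  | 0, x => [p x]
  | n + 1, x => if h : ∃ i, x i ≠ 0 then push (Sn L p n (dn x (pc L x h))) (p x) else [p x]

/-- the lift -/
noncomputable def SS (L : ℕ) (p : (Fin d → ℕ) → Bool × α) (x : Fin d → ℕ) : List (Bool × α) :=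
  Sn L p (∑ l, x l) x

theorem SS_eq (p : (Fin d → ℕ) → Bool × α) (x : Fin d → ℕ) (h : ∃ i, x i ≠ 0) :
    SS L p x = push (SS L p (dn x (pc L x h))) (p x) := by
  have h1 := sum_dn x (pc_spec (L := L) x h).1
  unfold SS
  rw [← h1, Sn, dif_pos h]

theorem SS_zero (p : (Fin d → ℕ) → Bool × α) (x : Fin d → ℕ) (h : ¬ ∃ i, x i ≠ 0) :
    SS L p x = [p x] := by
  unfold SS
  push Not at h
  rw [Finset.sum_eq_zero (fun i _ => h i), Sn]

/-- the two exceptional coordinates -/
theorem good_of_dvd {x : Fin d → ℕ} {i j : Fin d} (h : ∀ l, l ≠ i → l ≠ j → L ∣ x l) : Good L x :=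
  ⟨i, j, h⟩

theorem good_two {x : Fin d → ℕ} (hx : Good L x) {i j : Fin d} (hij : i ≠ j) (hi : ¬ L ∣ x i)
    (hj : ¬ L ∣ x j) : ∀ l, l ≠ i → l ≠ j → L ∣ x l := by
  obtain ⟨a, b, hab⟩ := hx
  have hia : i = a ∨ i = b := by
    by_contra h
    push Not at h
    exact hi (hab i h.1 h.2)
  have hja : j = a ∨ j = b := by
    by_contra h
    push Not at h
    exact hj (hab j h.1 h.2)
  intro l hli hlj
  refine hab l ?_ ?_
  · rintro rfl
    rcases hia with h | h
    · exact hli h.symm
    · rcases hja with h' | h'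
      · exact hlj h'.symm
      · exact hij (h.trans h'.symm)
  · rintro rfl
    rcases hia with h | h
    · rcases hja with h' | h'
      · exact hij (h.trans h'.symm)
      · exact hlj h'.symm
    · exact hli h.symm

theorem not_dvd_pred (hL : 2 ≤ L) {a : ℕ} (ha : a ≠ 0) (h : L ∣ a) : ¬ L ∣ a - 1 := by
  intro h'
  have h1 : L ∣ a - (a - 1) := Nat.dvd_sub h h'
  have h2 : a - (a - 1) = 1 := by omega
  rw [h2] at h1
  have := Nat.le_of_dvd one_pos h1
  omega

theorem good_pred (hL : 2 ≤ L) {y : Fin d → ℕ} (hy : Good L y) (h : ∃ i, y i ≠ 0) :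
    Good L (dn y (pc L y h)) := by
  obtain ⟨h0, h1 | h1⟩ := pc_spec (L := L) y h
  · obtain ⟨a, b, hab⟩ := hy
    refine ⟨a, b, fun l ha hb => ?_⟩
    by_cases hl : l = pc L y h
    · subst hl
      exact absurd (hab _ ha hb) h1
    · rw [dn_ne _ hl]
      exact hab l ha hb
  · exact ⟨pc L y h, pc L y h, fun l hl _ => by rw [dn_ne _ hl]; exact h1 l⟩

theorem good_sq (hL : 2 ≤ L) {y : Fin d → ℕ} (hy : Good L y) {i j : Fin d} (hij : i ≠ j)
    (hi0 : y i ≠ 0) (hi : Good L (dn y i)) (hj : (¬ L ∣ y j) ∨ ∀ l, L ∣ y l) :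
    ∀ l, l ≠ i → l ≠ j → L ∣ y l := by
  rcases hj with hj | hj
  · by_cases hdi : L ∣ y i
    · have h1 : ¬ L ∣ dn y i i := by
        rw [dn_same]
        exact not_dvd_pred hL hi0 hdi
      have h2 : ¬ L ∣ dn y i j := by
        rw [dn_ne _ hij.symm]
        exact hj
      intro l hli hlj
      have := good_two hi hij h1 h2 l hli hlj
      rwa [dn_ne _ hli] at this
    · exact good_two hy hij hdi hj
  · exact fun l _ _ => hj l

/-- labels of adjacent points are compatible -/
def PCompat (L : ℕ) (p : (Fin d → ℕ) → Bool × α) : Prop :=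
  ∀ x y : Fin d → ℕ, Good L x → Good L y → (∀ l, x l ≤ y l + 1 ∧ y l ≤ x l + 1) →
    Compat (p x) (p y)

theorem lift_main (hL : 2 ≤ L) {p : (Fin d → ℕ) → Bool × α} (hp : PCompat L p) :
    ∀ n : ℕ, ∀ y : Fin d → ℕ, ∑ l, y l = n → Good L y →
      (Red (SS L p y) ∧ ∃ t, SS L p y = p y :: t) ∧
      ∀ i, y i ≠ 0 → Good L (dn y i) → SS L p y = push (SS L p (dn y i)) (p y) := by
  intro n
  induction n using Nat.strong_induction_on with
  | _ n ih =>
    intro y hn hy
    by_cases h : ∃ i, y i ≠ 0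
    · set j := pc L y h with hj
      obtain ⟨hj0, hj1⟩ := pc_spec (L := L) y h
      rw [← hj] at hj0 hj1
      have hgu : Good L (dn y j) := good_pred hL hy h
      have hSu := SS_eq (L := L) p y h
      rw [← hj] at hSu
      have hsu := sum_dn y hj0
      obtain ⟨⟨hr, t, ht⟩, hu3⟩ := ih (∑ l, dn y j l) (by omega) (dn y j) rfl hgu
      have hdist : ∀ (z : Fin d → ℕ) (i : Fin d), ∀ l, z l ≤ dn z i l + 1 ∧ dn z i l ≤ z l + 1 := by
        intro z i l
        by_cases hl : l = i
        · subst hl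
          rw [dn_same]
          omega
        · rw [dn_ne _ hl]
          omega
      have hcu : Compat (p y) (p (dn y j)) := hp y _ hy hgu (hdist y j)
      refine ⟨?_, ?_⟩
      · rw [hSu, ht]
        rw [ht] at hr
        exact red_push hr hcu
      · intro i hi0 hgx
        by_cases hij : i = j
        · subst hij
          exact hSu
        · have hsx := sum_dn y hi0
          have hxj : dn y i j ≠ 0 := by
            rw [dn_ne _ (Ne.symm hij)]
            exact hj0
          have hui : dn y j i ≠ 0 := by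
            rw [dn_ne _ hij]
            exact hi0
          have hzz : dn (dn y i) j = dn (dn y j) i := dn_comm y hij
          have hgz : Good L (dn (dn y i) j) := by
            refine ⟨i, j, fun l hli hlj => ?_⟩
            rw [dn_ne _ hlj, dn_ne _ hli]
            exact good_sq hL hy hij hi0 hgx hj1 l hli hlj
          have hgz' : Good L (dn (dn y j) i) := hzz ▸ hgz
          have hsz := sum_dn (dn y i) hxj
          obtain ⟨⟨_, _⟩, hx3⟩ := ih (∑ l, dn y i l) (by omega) (dn y i) rfl hgx
          obtain ⟨⟨hrz, hhz⟩, _⟩ := ih (∑ l, dn (dn y i) j l) (by omega) (dn (dn y i) j) rfl hgz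
          have e1 := hx3 j hxj hgz
          have e2 := hu3 i hui hgz'
          rw [hSu, e2, e1, ← hzz]
          -- everything within a unit cube
          refine push_square hhz hrz ?_ ?_ ?_ ?_ ?_
          · rw [hzz]
            exact hp _ _ hgu hgz' (hdist _ _)
          · exact hp _ _ hgx hgz (hdist _ _)
          · refine hp _ _ hy hgz fun l => ?_
            by_cases hlj : l = j
            · subst hlj
              rw [dn_same, dn_ne _ (Ne.symm hij)]
              omega
            · rw [dn_ne _ hlj]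
              exact hdist y i l
          · exact hcu.symm
          · exact (hp y _ hy hgx (hdist y i)).symm
    · rw [SS_zero p y h]
      refine ⟨⟨trivial, [], rfl⟩, fun i hi => absurd ⟨i, hi⟩ h⟩

end H63LB
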