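import Mathlib
import Pool.Agent.H63LB.Lift

set_option autoImplicit false

/-! Walks in the two-skeleton of the cubical lattice. -/

namespace H63LB

open Function

variable {d : ℕ} {α : Type*} {L : ℕ}

/-- a unit step -/
def Stp (L : ℕ) (x y : Fin d → ℕ) : Prop :=
  Good L x ∧ Good L y ∧ ∃ i, (x i ≠ 0 ∧ y = dn x i) ∨ (y i ≠ 0 ∧ x = dn y i)

theorem Stp.symm {x y : Fin d → ℕ} (h : Stp L x y) : Stp L y x := by
  obtain ⟨h1, h2, i, h3⟩ := h
  exact ⟨h2, h1, i, h3.symm⟩

theorem lift_red (hL : 2 ≤ L) {p : (Fin d → ℕ) → Bool × α} (hp : PCompat L p) {y : Fin d → ℕ}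
    (hy : Good L y) : Red (SS L p y) ∧ ∃ t, SS L p y = p y :: t :=
  (lift_main hL hp _ y rfl hy).1

theorem lift_dn (hL : 2 ≤ L) {p : (Fin d → ℕ) → Bool × α} (hp : PCompat L p) {y : Fin d → ℕ}
    (hy : Good L y) {i : Fin d} (hi : y i ≠ 0) (h : Good L (dn y i)) :
    SS L p y = push (SS L p (dn y i)) (p y) :=
  (lift_main hL hp _ y rfl hy).2 i hi h

theorem stp_aux (hL : 2 ≤ L) {p : (Fin d → ℕ) → Bool × α} (hp : PCompat L p) {y : Fin d → ℕ}
    (hy : Good L y) {i : Fin d} (hi : y i ≠ 0) (h : Good L (dn y i)) :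
    ((SS L p y).length ≤ (SS L p (dn y i)).length + 1 ∧
      (SS L p (dn y i)).length ≤ (SS L p y).length + 1) ∧
    ∀ n, n ≤ (SS L p y).length → n ≤ (SS L p (dn y i)).length →
      suf n (SS L p y) = suf n (SS L p (dn y i)) := by
  have e := lift_dn hL hp hy hi h
  obtain ⟨t, ht⟩ := (lift_red hL hp h).2
  rw [ht] at e ⊢
  rw [e]
  exact ⟨push_len _, fun n h1 h2 => push_suf h2 h1⟩

theorem stp_len (hL : 2 ≤ L) {p : (Fin d → ℕ) → Bool × α} (hp : PCompat L p) {x y : Fin d → ℕ}
    (h : Stp L x y) : (SS L p x).length ≤ (SS L p y).length + 1 ∧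
      (SS L p y).length ≤ (SS L p x).length + 1 := by
  obtain ⟨hx, hy, i, ⟨hi, rfl⟩ | ⟨hi, rfl⟩⟩ := h
  · exact (stp_aux hL hp hx hi hy).1
  · exact (stp_aux hL hp hy hi hx).1.symm

theorem stp_suf (hL : 2 ≤ L) {p : (Fin d → ℕ) → Bool × α} (hp : PCompat L p) {x y : Fin d → ℕ}
    (h : Stp L x y) {n : ℕ} (h1 : n ≤ (SS L p x).length) (h2 : n ≤ (SS L p y).length) :
    suf n (SS L p x) = suf n (SS L p y) := by
  obtain ⟨hx, hy, i, ⟨hi, rfl⟩ | ⟨hi, rfl⟩⟩ := h
  · exact (stp_aux hL hp hx hi hy).2 n h1 h2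
  · exact ((stp_aux hL hp hy hi hx).2 n h2 h1).symm

/-- walks with a given number of steps -/
inductive Pth (L : ℕ) : ℕ → (Fin d → ℕ) → (Fin d → ℕ) → Prop
  | refl (x : Fin d → ℕ) : Pth L 0 x x
  | head {n : ℕ} {x y z : Fin d → ℕ} (h : Stp L x y) (h' : Pth L n y z) : Pth L (n + 1) x z

theorem Pth.trans {n m : ℕ} {x y z : Fin d → ℕ} (h : Pth L n x y) (h' : Pth L m y z) :
    Pth L (n + m) x z := by
  induction h with
  | refl x => rwa [Nat.zero_add]
  | @head n x w y h1 _ ih =>
    have := Pth.head h1 (ih h')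
    rwa [Nat.add_right_comm] at this

theorem Pth.one {x y : Fin d → ℕ} (h : Stp L x y) : Pth L 1 x y := Pth.head h (Pth.refl y)

theorem Pth.symm {n : ℕ} {x y : Fin d → ℕ} (h : Pth L n x y) : Pth L n y x := by
  induction h with
  | refl x => exact Pth.refl x
  | @head n x w y h1 _ ih => exact ih.trans (Pth.one h1.symm)

theorem pth_len (hL : 2 ≤ L) {p : (Fin d → ℕ) → Bool × α} (hp : PCompat L p) {n : ℕ}
    {x y : Fin d → ℕ} (h : Pth L n x y) : (SS L p x).length ≤ (SS L p y).length + n ∧
      (SS L p y).length ≤ (SS L p x).length + n := by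
  induction h with
  | refl x => omega
  | @head n x w y h1 _ ih =>
    have := stp_len hL hp h1
    omega

theorem pth_suf (hL : 2 ≤ L) {p : (Fin d → ℕ) → Bool × α} (hp : PCompat L p) {n : ℕ}
    {x y : Fin d → ℕ} (h : Pth L n x y) {D : ℕ}
    (hD : 2 * D + n ≤ (SS L p x).length + (SS L p y).length + 1) :
    suf D (SS L p x) = suf D (SS L p y) := by
  induction h with
  | refl x => rfl
  | @head n x w y h1 h2 ih =>
    have e1 := stp_len hL hp h1
    have e2 := pth_len hL hp h2
    rw [← ih (by omega)]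
    exact stp_suf hL hp h1 (by omega) (by omega)

/-- the coordinate `l` may be changed -/
def Free (L : ℕ) (x : Fin d → ℕ) (l : Fin d) : Prop :=
  ∃ i, ∀ l', l' ≠ l → l' ≠ i → L ∣ x l'

theorem Free.good {x : Fin d → ℕ} {l : Fin d} (h : Free L x l) (v : ℕ) :
    Good L (update x l v) := by
  obtain ⟨i, hi⟩ := h
  exact ⟨l, i, fun l' h1 h2 => by rw [update_of_ne h1]; exact hi l' h1 h2⟩

theorem free_of_dvd {x : Fin d → ℕ} (h : ∀ l, L ∣ x l) (l : Fin d) : Free L x l :=
  ⟨l, fun l' _ _ => h l'⟩

theorem stp_up {x : Fin d → ℕ} {l : Fin d} (h : Free L x l) (a : ℕ) :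
    Stp L (update x l a) (update x l (a + 1)) := by
  refine ⟨h.good a, h.good (a + 1), l, Or.inr ⟨?_, ?_⟩⟩
  · rw [update_self]
    omega
  · funext l'
    by_cases hl : l' = l
    · subst hl
      rw [update_self, dn_same, update_self]
      omega
    · rw [update_of_ne hl, dn_ne _ hl, update_of_ne hl]

theorem seg_up {x : Fin d → ℕ} {l : Fin d} (h : Free L x l) (a k : ℕ) :
    Pth L k (update x l a) (update x l (a + k)) := by
  induction k with
  | zero => exact Pth.refl _
  | succ k ih => exact ih.trans (Pth.one (stp_up h (a + k)))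

theorem seg {x : Fin d → ℕ} {l : Fin d} (h : Free L x l) (a b : ℕ) :
    Pth L ((a - b) + (b - a)) (update x l a) (update x l b) := by
  rcases le_total a b with hab | hab
  · have := seg_up h a (b - a)
    rw [Nat.add_sub_cancel' hab] at this
    rwa [Nat.sub_eq_zero_of_le hab, Nat.zero_add]
  · have := (seg_up h b (a - b)).symm
    rw [Nat.add_sub_cancel' hab] at this
    rwa [Nat.sub_eq_zero_of_le hab, Nat.add_zero]

/-- a walk between lattice points -/
theorem lat_path {v w : Fin d → ℕ} (hv : ∀ l, L ∣ v l) (hw : ∀ l, L ∣ w l) :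
    Pth L (∑ l, ((v l - w l) + (w l - v l))) v w := by
  classical
  have key : ∀ s : Finset (Fin d),
      Pth L (∑ l ∈ s, ((v l - w l) + (w l - v l))) v (s.piecewise w v) := by
    intro s
    induction s using Finset.induction_on with
    | empty =>
      rw [Finset.sum_empty, Finset.piecewise_empty]
      exact Pth.refl v
    | insert a s ha ih =>
      rw [Finset.sum_insert ha, add_comm, Finset.piecewise_insert]
      refine ih.trans ?_
      have hdv : ∀ l, L ∣ s.piecewise w v l := by
        intro l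
        by_cases hl : l ∈ s
        · rw [Finset.piecewise_eq_of_mem _ _ _ hl]
          exact hw l
        · rw [Finset.piecewise_eq_of_notMem _ _ _ hl]
          exact hv l
      have := seg (free_of_dvd hdv a) (v a) (w a)
      have e : update (s.piecewise w v) a (v a) = s.piecewise w v := by
        rw [← Finset.piecewise_eq_of_notMem s w v ha, update_eq_self]
      rwa [e] at this
  have := key Finset.univ
  rwa [Finset.piecewise_univ] at this

/-- the cube with index `z` -/
def InQ (L : ℕ) (z x : Fin d → ℕ) : Prop := ∀ l, L * z l ≤ x l ∧ x l ≤ L * (z l + 1)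

/-- steps in the cube -/
def QStep (L : ℕ) (z x y : Fin d → ℕ) : Prop := Stp L x y ∧ InQ L z x ∧ InQ L z y

theorem QStep.symm {z x y : Fin d → ℕ} (h : QStep L z x y) : QStep L z y x :=
  ⟨h.1.symm, h.2.2, h.2.1⟩

theorem inq_update {z x : Fin d → ℕ} {l : Fin d} (h : InQ L z x) {v : ℕ}
    (h1 : L * z l ≤ v) (h2 : v ≤ L * (z l + 1)) : InQ L z (update x l v) := by
  intro l'
  by_cases hl : l' = l
  · subst hl
    rw [update_self]
    exact ⟨h1, h2⟩
  · rw [update_of_ne hl]
    exact h l'

theorem qseg {z x : Fin d → ℕ} {l : Fin d} (hx : InQ L z x) (h : Free L x l) (k : ℕ)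
    (hk : L * z l + k ≤ L * (z l + 1)) :
    Relation.ReflTransGen (QStep L z) (update x l (L * z l + k)) (update x l (L * z l)) := by
  induction k with
  | zero => exact Relation.ReflTransGen.refl
  | succ k ih =>
    refine Relation.ReflTransGen.head ⟨(stp_up h (L * z l + k)).symm, ?_, ?_⟩ (ih (by omega))
    · exact inq_update hx (by omega) (by omega)
    · exact inq_update hx (by omega) (by omega)

theorem qseg' {z x : Fin d → ℕ} {l : Fin d} (hx : InQ L z x) (h : Free L x l) :
    Relation.ReflTransGen (QStep L z) x (update x l (L * z l)) := by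
  have h1 := hx l
  have := qseg hx h (x l - L * z l) (by omega)
  have e : L * z l + (x l - L * z l) = x l := by omega
  rwa [e, update_eq_self] at this

theorem q_conn {z x : Fin d → ℕ} (hg : Good L x) (hx : InQ L z x) :
    Relation.ReflTransGen (QStep L z) x (fun l => L * z l) := by
  classical
  obtain ⟨i, j, hij⟩ := hg
  have hz : ∀ l, L * z l ≤ L * (z l + 1) := fun l => Nat.mul_le_mul_left L (Nat.le_succ _)
  have h1 := qseg' hx (l := i) ⟨j, hij⟩
  set x1 := update x i (L * z i) with hx1
  have hq1 : InQ L z x1 := inq_update hx le_rfl (hz i)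
  have hd1 : ∀ l, l ≠ j → L ∣ x1 l := by
    intro l hl
    by_cases hli : l = i
    · subst hli
      rw [hx1, update_self]
      exact dvd_mul_right _ _
    · rw [hx1, update_of_ne hli]
      exact hij l hli hl
  have h2 := qseg' hq1 (l := j) ⟨j, fun l hl _ => hd1 l hl⟩
  set x2 := update x1 j (L * z j) with hx2
  have hq2 : InQ L z x2 := inq_update hq1 le_rfl (hz j)
  have hd2 : ∀ l, L ∣ x2 l := by
    intro l
    by_cases hlj : l = j
    · subst hlj
      rw [hx2, update_self]
      exact dvd_mul_right _ _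
    · rw [hx2, update_of_ne hlj]
      exact hd1 l hlj
  have key : ∀ s : Finset (Fin d),
      Relation.ReflTransGen (QStep L z) x2 (s.piecewise (fun l => L * z l) x2) := by
    intro s
    induction s using Finset.induction_on with
    | empty =>
      rw [Finset.piecewise_empty]
    | insert a s ha ih =>
      rw [Finset.piecewise_insert]
      refine ih.trans (qseg' ?_ (free_of_dvd ?_ a))
      · intro l
        by_cases hl : l ∈ s
        · rw [Finset.piecewise_eq_of_mem _ _ _ hl]
          exact ⟨le_rfl, hz l⟩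
        · rw [Finset.piecewise_eq_of_notMem _ _ _ hl]
          exact hq2 l
      · intro l
        by_cases hl : l ∈ s
        · rw [Finset.piecewise_eq_of_mem _ _ _ hl]
          exact dvd_mul_right _ _
        · rw [Finset.piecewise_eq_of_notMem _ _ _ hl]
          exact hd2 l
  have h3 := key Finset.univ
  rw [Finset.piecewise_univ] at h3
  exact (h1.trans h2).trans h3

theorem rtg_symm {β : Type*} {r : β → β → Prop} (hr : ∀ a b, r a b → r b a) {a b : β}
    (h : Relation.ReflTransGen r a b) : Relation.ReflTransGen r b a := by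
  induction h with
  | refl => exact Relation.ReflTransGen.refl
  | tail _ h2 ih => exact Relation.ReflTransGen.head (hr _ _ h2) ih

theorem q_conn' {z x y : Fin d → ℕ} (hx : Good L x) (hx' : InQ L z x) (hy : Good L y)
    (hy' : InQ L z y) : Relation.ReflTransGen (QStep L z) x y :=
  (q_conn hx hx').trans (rtg_symm (fun _ _ h => QStep.symm h) (q_conn hy hy'))

/-- the smallest length of the lift over the cube -/
noncomputable def tau (L : ℕ) (p : (Fin d → ℕ) → Bool × α) (z : Fin d → ℕ) : ℕ :=
  sInf {n | ∃ x, Good L x ∧ InQ L z x ∧ (SS L p x).length = n}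

theorem tau_le {p : (Fin d → ℕ) → Bool × α} {z x : Fin d → ℕ} (hx : Good L x)
    (hx' : InQ L z x) : tau L p z ≤ (SS L p x).length :=
  Nat.sInf_le ⟨x, hx, hx', rfl⟩

theorem corner_inq (z : Fin d → ℕ) : InQ L z (fun l => L * z l) :=
  fun _ => ⟨le_rfl, Nat.mul_le_mul_left L (Nat.le_succ _)⟩

theorem good_of_all (hd : 0 < d) {x : Fin d → ℕ} (h : ∀ l, L ∣ x l) : Good L x :=
  ⟨⟨0, hd⟩, ⟨0, hd⟩, fun l _ _ => h l⟩

theorem tau_mem (hd : 0 < d) (p : (Fin d → ℕ) → Bool × α) (z : Fin d → ℕ) :
    ∃ x, Good L x ∧ InQ L z x ∧ (SS L p x).length = tau L p z := by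
  have hne : {n | ∃ x, Good L x ∧ InQ L z x ∧ (SS L p x).length = n}.Nonempty :=
    ⟨_, fun l => L * z l, good_of_all hd (fun l => dvd_mul_right _ _), corner_inq z, rfl⟩
  exact Nat.sInf_mem hne

theorem tau_pos (hd : 0 < d) (hL : 2 ≤ L) {p : (Fin d → ℕ) → Bool × α} (hp : PCompat L p)
    (z : Fin d → ℕ) : 0 < tau L p z := by
  obtain ⟨x, hx, _, h⟩ := tau_mem hd (L := L) p z
  obtain ⟨t, ht⟩ := (lift_red hL hp hx).2
  rw [← h, ht]
  simp

/-- within a cube the common suffix does not change -/
theorem q_suf (hL : 2 ≤ L) {p : (Fin d → ℕ) → Bool × α} (hp : PCompat L p) {z x y : Fin d → ℕ}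
    (h : Relation.ReflTransGen (QStep L z) x y) {D : ℕ} (hD : D ≤ tau L p z) :
    suf D (SS L p x) = suf D (SS L p y) := by
  induction h with
  | refl => rfl
  | tail _ h2 ih =>
    rw [ih]
    exact stp_suf hL hp h2.1 (hD.trans (tau_le h2.1.1 h2.2.1)) (hD.trans (tau_le h2.1.2.1 h2.2.2))

/-- intermediate value -/
theorem q_local (hL : 2 ≤ L) {p : (Fin d → ℕ) → Bool × α} (hp : PCompat L p) {z x y : Fin d → ℕ}
    (h : Relation.ReflTransGen (QStep L z) x y) {D : ℕ} (hy : (SS L p y).length ≤ D) :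
    Good L x → InQ L z x → D ≤ (SS L p x).length →
      ∃ x', Good L x' ∧ InQ L z x' ∧ SS L p x' = suf D (SS L p x) := by
  induction h using Relation.ReflTransGen.head_induction_on with
  | refl =>
    intro h1 h2 h3
    exact ⟨y, h1, h2, (suf_self (by omega)).symm⟩
  | @head x w h1 h2 ih =>
    intro g1 g2 g3
    by_cases he : (SS L p x).length = D
    · exact ⟨x, g1, g2, (suf_self he).symm⟩
    · have e1 := stp_len hL hp h1.1
      obtain ⟨x', a1, a2, a3⟩ := ih h1.1.2.1 h1.2.2 (by omega)
      refine ⟨x', a1, a2, ?_⟩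
      rw [a3]
      exact (stp_suf hL hp h1.1 g3 (by omega)).symm

/-- the distance from `y` to the blown up cube -/
def rho (B : ℕ) (z y : Fin d → ℕ) : ℕ :=
  Finset.univ.sup fun l => (B * z l - y l) + (y l - B * (z l + 1))

theorem rho_ge (B : ℕ) (z y : Fin d → ℕ) (l : Fin d) :
    (B * z l - y l) + (y l - B * (z l + 1)) ≤ rho B z y :=
  Finset.le_sup (f := fun l => (B * z l - y l) + (y l - B * (z l + 1))) (Finset.mem_univ l)

theorem rho_lip (B : ℕ) (z : Fin d → ℕ) {y y' : Fin d → ℕ}
    (h : ∀ l, y l ≤ y' l + 1 ∧ y' l ≤ y l + 1) : rho B z y ≤ rho B z y' + 1 := by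
  refine Finset.sup_le fun l _ => ?_
  have h1 := rho_ge B z y' l
  have h2 := h l
  have h3 : B * z l ≤ B * (z l + 1) := Nat.mul_le_mul_left B (Nat.le_succ _)
  omega

/-- a short walk between two cubes -/
theorem cube_walk (hd : 0 < d) (z z' y : Fin d → ℕ) :
    ∃ v v' : Fin d → ℕ, ∃ n : ℕ, Good L v ∧ Good L v' ∧ InQ L z v ∧ InQ L z' v' ∧
      Pth L n v v' ∧ n ≤ rho (d * L) z y + rho (d * L) z' y := by
  classical
  set v : Fin d → ℕ := fun l => if z l < z' l then L * (z l + 1) else L * z l with hv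
  set v' : Fin d → ℕ := fun l => if z' l < z l then L * (z' l + 1) else L * z' l with hv'
  have hvd : ∀ l, L ∣ v l := by
    intro l
    simp only [hv]
    split_ifs <;> exact dvd_mul_right _ _
  have hvd' : ∀ l, L ∣ v' l := by
    intro l
    simp only [hv']
    split_ifs <;> exact dvd_mul_right _ _
  have hz : ∀ l, L * z l ≤ L * (z l + 1) := fun l => Nat.mul_le_mul_left L (Nat.le_succ _)
  have hz' : ∀ l, L * z' l ≤ L * (z' l + 1) := fun l => Nat.mul_le_mul_left L (Nat.le_succ _)
  refine ⟨v, v', _, good_of_all hd hvd, good_of_all hd hvd', ?_, ?_, lat_path hvd hvd', ?_⟩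
  · intro l
    simp only [hv]
    split_ifs
    · exact ⟨hz l, le_rfl⟩
    · exact ⟨le_rfl, hz l⟩
  · intro l
    simp only [hv']
    split_ifs
    · exact ⟨hz' l, le_rfl⟩
    · exact ⟨le_rfl, hz' l⟩
  · have key : ∀ l, d * ((v l - v' l) + (v' l - v l)) ≤ rho (d * L) z y + rho (d * L) z' y := by
      intro l
      have h1 := rho_ge (d * L) z y l
      have h2 := rho_ge (d * L) z' y l
      rcases lt_trichotomy (z l) (z' l) with h | h | h
      · have e1 : v l = L * (z l + 1) := by simp only [hv]; rw [if_pos h]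
        have e2 : v' l = L * z' l := by simp only [hv']; rw [if_neg (by omega)]
        obtain ⟨k, hk⟩ : ∃ k, z' l = z l + 1 + k := ⟨z' l - (z l + 1), by omega⟩
        have e3 : (v l - v' l) + (v' l - v l) = L * k := by
          rw [e1, e2, hk, Nat.mul_add L (z l + 1) k]
          omega
        rw [e3, ← mul_assoc]
        rw [hk] at h2
        have e4 : d * L * (z l + 1 + k) = d * L * (z l + 1) + d * L * k := Nat.mul_add _ _ _
        rw [e4] at h2
        omega
      · have e1 : v l = L * z l := by simp only [hv]; rw [if_neg (by omega)]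
        have e2 : v' l = L * z' l := by simp only [hv']; rw [if_neg (by omega)]
        rw [e1, e2, h]
        simp
      · have e1 : v l = L * z l := by simp only [hv]; rw [if_neg (by omega)]
        have e2 : v' l = L * (z' l + 1) := by simp only [hv']; rw [if_pos h]
        obtain ⟨k, hk⟩ : ∃ k, z l = z' l + 1 + k := ⟨z l - (z' l + 1), by omega⟩
        have e3 : (v l - v' l) + (v' l - v l) = L * k := by
          rw [e1, e2, hk, Nat.mul_add L (z' l + 1) k]
          omega
        rw [e3, ← mul_assoc]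
        rw [hk] at h1
        have e4 : d * L * (z' l + 1 + k) = d * L * (z' l + 1) + d * L * k := Nat.mul_add _ _ _
        rw [e4] at h1
        omega
    have h2 : d * ∑ l, ((v l - v' l) + (v' l - v l)) ≤
        d * (rho (d * L) z y + rho (d * L) z' y) := by
      rw [Finset.mul_sum]
      refine (Finset.sum_le_sum fun l _ => key l).trans ?_
      rw [Finset.sum_const, Finset.card_univ, Fintype.card_fin, smul_eq_mul]
    exact Nat.le_of_mul_le_mul_left h2 hd

end H63LB
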