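import Mathlib
import Pool.Agent.H63LB.Walk
import Pool.Agent.H812R5.Hex

set_option autoImplicit false

/-! A long monochromatic chain for a labelling of the two-skeleton of the cubical lattice. -/

namespace H63LB

open Function

variable {d : ℕ} {α : Type*} {L : ℕ}

/-- the cube containing the point `y` of the blown up grid -/
def zz (B M : ℕ) (y : Fin d → ℕ) : Fin d → ℕ := fun l => min (y l / B) (M - 1)

theorem zz_spec {B M : ℕ} (hB : 0 < B) (hM : 0 < M) {y : Fin d → ℕ} (hy : ∀ l, y l ≤ B * M)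
    (l : Fin d) : B * zz B M y l ≤ y l ∧ y l ≤ B * (zz B M y l + 1) := by
  have h1 : B * (y l / B) ≤ y l := Nat.mul_div_le _ _
  have h2 : y l < B * (y l / B + 1) := Nat.lt_mul_div_succ _ hB
  unfold zz
  rcases le_total (y l / B) (M - 1) with h | h
  · rw [min_eq_left h]
    exact ⟨h1, h2.le⟩
  · rw [min_eq_right h]
    refine ⟨(Nat.mul_le_mul_left B h).trans h1, ?_⟩
    have : M - 1 + 1 = M := by omega
    rw [this]
    exact hy l

theorem zz_adj {B M : ℕ} (hB : 0 < B) {y y' : Fin d → ℕ} {l : Fin d} (h : y l ≤ y' l + 1) :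
    zz B M y l ≤ zz B M y' l + 1 := by
  have h1 : y l / B ≤ y' l / B + 1 := by
    calc y l / B ≤ (y' l + B) / B := Nat.div_le_div_right (by omega)
      _ = y' l / B + 1 := Nat.add_div_right _ hB
  unfold zz
  omega

/-- the interpolated length -/
noncomputable def DD (L M : ℕ) (p : (Fin d → ℕ) → Bool × α) (y : Fin d → ℕ) : ℕ :=
  (Fintype.piFinset fun _ : Fin d => Finset.range M).sup fun z => tau L p z - rho (d * L) z y

theorem exists_point (hd : 0 < d) (hL : 2 ≤ L) {p : (Fin d → ℕ) → Bool × α} (hp : PCompat L p)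
    {M : ℕ} (hM : 0 < M) {y : Fin d → ℕ} (hy : ∀ l, y l ≤ d * L * M) :
    ∃ x z : Fin d → ℕ, Good L x ∧ InQ L (zz (d * L) M y) x ∧ 0 < DD L M p y ∧
      (∀ l, z l < M) ∧ DD L M p y + rho (d * L) z y = tau L p z ∧
      SS L p x = suf (DD L M p y) (SS L p fun l => L * z l) := by
  set B := d * L with hB
  have hB0 : 0 < B := Nat.mul_pos hd (by omega)
  set z₀ := zz B M y with hz₀
  have hz₀mem : z₀ ∈ Fintype.piFinset fun _ : Fin d => Finset.range M := by
    rw [Fintype.mem_piFinset]
    intro l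
    rw [Finset.mem_range, hz₀]
    unfold zz
    omega
  have hr0 : rho B z₀ y = 0 := by
    refine Nat.le_zero.1 (Finset.sup_le fun l _ => ?_)
    have := zz_spec hB0 hM hy l
    rw [← hz₀] at this
    omega
  have hD0 : tau L p z₀ ≤ DD L M p y := by
    have := Finset.le_sup (f := fun z => tau L p z - rho B z y) hz₀mem
    simp only [hr0, Nat.sub_zero] at this
    exact this
  have hDpos : 0 < DD L M p y := (tau_pos hd hL hp z₀).trans_le hD0
  obtain ⟨z, hz, hDz⟩ := Finset.exists_mem_eq_sup _ ⟨z₀, hz₀mem⟩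
    (fun z => tau L p z - rho B z y)
  have hDz' : DD L M p y = tau L p z - rho B z y := hDz
  set D := DD L M p y with hD
  have hDt : D + rho B z y = tau L p z := by omega
  have hzM : ∀ l, z l < M := fun l => by
    rw [Fintype.mem_piFinset] at hz
    exact Finset.mem_range.1 (hz l)
  obtain ⟨v, v', n, hv, hv', hqv, hqv', hpath, hn⟩ := cube_walk (L := L) hd z z₀ y
  rw [← hB, hr0, add_zero] at hn
  have h1 := tau_le (p := p) hv hqv
  have h2 := pth_len hL hp hpath
  have h3 := pth_suf hL hp hpath (D := D) (by omega)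
  have h4 := q_suf hL hp (q_conn' (good_of_all hd fun l => dvd_mul_right L (z l)) (corner_inq z)
    hv hqv) (D := D) (by omega)
  obtain ⟨x₁, hx₁, hqx₁, hl₁⟩ := tau_mem hd (L := L) p z₀
  obtain ⟨x', a1, a2, a3⟩ := q_local hL hp (q_conn' hv' hqv' hx₁ hqx₁) (D := D) (by omega) hv' hqv'
    (by omega)
  exact ⟨x', z, a1, a2, hDpos, hzM, hDt, by rw [a3, ← h3, h4]⟩

theorem compare_points (hd : 0 < d) (hL : 2 ≤ L) {p : (Fin d → ℕ) → Bool × α} (hp : PCompat L p)
    {M : ℕ} {y y' x x' z z' : Fin d → ℕ} (hadj : ∀ l, y l ≤ y' l + 1 ∧ y' l ≤ y l + 1)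
    (hx : Good L x) (hx' : Good L x') (hz' : ∀ l, z' l < M)
    (hDz : DD L M p y + rho (d * L) z y = tau L p z)
    (hDz' : DD L M p y' + rho (d * L) z' y' = tau L p z')
    (hS : SS L p x = suf (DD L M p y) (SS L p fun l => L * z l))
    (hS' : SS L p x' = suf (DD L M p y') (SS L p fun l => L * z' l))
    (hle : DD L M p y ≤ DD L M p y') (hc : (p x).1 = (p x').1) : p x = p x' := by
  have hr := rho_lip (d * L) z' (y := y) (y' := y') hadj
  have hD' : DD L M p y' ≤ DD L M p y + 1 := by
    have hmem : z' ∈ Fintype.piFinset fun _ : Fin d => Finset.range M := by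
      rw [Fintype.mem_piFinset]
      intro l
      rw [Finset.mem_range]
      exact hz' l
    have h1 : tau L p z' - rho (d * L) z' y ≤ DD L M p y :=
      Finset.le_sup (f := fun z => tau L p z - rho (d * L) z y) hmem
    omega
  have hc1 : Good L (fun l => L * z l) := good_of_all hd fun l => dvd_mul_right L (z l)
  have hc2 : Good L (fun l => L * z' l) := good_of_all hd fun l => dvd_mul_right L (z' l)
  have ht1 := tau_le (p := p) hc1 (corner_inq z)
  have ht2 := tau_le (p := p) hc2 (corner_inq z')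
  obtain ⟨v, v', n, hv, hv', hqv, hqv', hpath, hn⟩ := cube_walk (L := L) hd z z' y
  have h1 := tau_le (p := p) hv hqv
  have h2 := tau_le (p := p) hv' hqv'
  have h3 := pth_suf hL hp hpath (D := DD L M p y) (by omega)
  have h4 := q_suf hL hp (q_conn' hc1 (corner_inq z) hv hqv) (D := DD L M p y) (by omega)
  have h5 := q_suf hL hp (q_conn' hc2 (corner_inq z') hv' hqv') (D := DD L M p y) (by omega)
  have h6 : SS L p x = suf (DD L M p y) (SS L p x') := by
    rw [hS', suf_suf hle (by omega), hS, h4, h3, h5]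
  have hlen : (SS L p x').length = DD L M p y' := by
    rw [hS', suf_length (by omega)]
  obtain ⟨_, t, ht⟩ := lift_red hL hp hx
  obtain ⟨hred, t', ht'⟩ := lift_red hL hp hx'
  rcases Nat.lt_or_ge (DD L M p y) (DD L M p y') with hlt | hge
  · -- the longer list extends the shorter one
    exfalso
    have e1 : DD L M p y = t'.length := by
      rw [ht', List.length_cons] at hlen
      omega
    have e2 : suf (DD L M p y) (SS L p x') = t' := by
      rw [ht', suf_cons (by omega), suf_self e1.symm]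
    rw [e2, ht] at h6
    rw [ht', ← h6] at hred
    exact red_ne hred hc.symm
  · have e1 : suf (DD L M p y) (SS L p x') = SS L p x' := suf_self (by omega)
    rw [e1, ht, ht'] at h6
    exact (List.cons.inj h6).1

/-- The long monochromatic chain. -/
theorem comb {k M : ℕ} (hk : 2 * k ≤ d) (hd : 0 < d) (hL : 2 ≤ L) (hM : 0 < M)
    {p : (Fin d → ℕ) → Bool × α} (hp : PCompat L p) (j : (Fin d → ℕ) → Fin k) :
    ∃ i : Fin d, ∃ x x' : Fin d → ℕ, Good L x ∧ Good L x' ∧ x i ≤ L ∧ L * (M - 1) ≤ x' i ∧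
      Relation.ReflTransGen (fun u v => Good L u ∧ Good L v ∧ p u = p v ∧ j u = j v ∧
        ∀ l, u l ≤ v l + 2 * L ∧ v l ≤ u l + 2 * L) x x' := by
  classical
  set B := d * L with hB
  have hB0 : 0 < B := Nat.mul_pos hd (by omega)
  have hex : ∀ y : Fin d → ℕ, (∀ l, y l ≤ d * L * M) → ∃ x z : Fin d → ℕ, Good L x ∧
      InQ L (zz (d * L) M y) x ∧ 0 < DD L M p y ∧
      (∀ l, z l < M) ∧ DD L M p y + rho (d * L) z y = tau L p z ∧
      SS L p x = suf (DD L M p y) (SS L p fun l => L * z l) :=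
    fun y hy => exists_point hd hL hp hM hy
  choose! X Z hX1 hX2 hX3 hX4 hX5 hX6 using hex
  have hcomp : ∀ y y' : Fin d → ℕ, (∀ l, y l ≤ d * L * M) → (∀ l, y' l ≤ d * L * M) →
      (∀ l, y l ≤ y' l + 1 ∧ y' l ≤ y l + 1) → (p (X y)).1 = (p (X y')).1 →
      p (X y) = p (X y') := by
    intro y y' hy hy' hadj hc
    rcases le_total (DD L M p y) (DD L M p y') with h | h
    · exact compare_points hd hL hp hadj (hX1 y hy) (hX1 y' hy') (hX4 y' hy') (hX5 y hy)
        (hX5 y' hy') (hX6 y hy) (hX6 y' hy') h hc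
    · exact (compare_points hd hL hp (fun l => (hadj l).symm) (hX1 y' hy') (hX1 y hy) (hX4 y hy)
        (hX5 y' hy') (hX5 y hy) (hX6 y' hy') (hX6 y hy) h hc.symm).symm
  obtain ⟨ι⟩ : Nonempty ((Bool × Fin k) ↪ Fin d) :=
    Function.Embedding.nonempty_of_card_le (by
      rw [Fintype.card_prod, Fintype.card_bool, Fintype.card_fin, Fintype.card_fin]
      exact hk)
  let N : (Fin d → ℤ) → (Fin d → ℕ) := fun s l => (s l).toNat
  let c : (Fin d → ℤ) → Fin d := fun s => ι ((p (X (N s))).1, j (X (N s)))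
  obtain ⟨i, s, s', hs, hs', hsi, hsi', hcs, hcs', hrel⟩ :=
    H812R5.Hex.taskHex d (B * M) hd (Nat.mul_pos hB0 hM) c
  have hbox : ∀ t : Fin d → ℤ, (∀ l, 0 ≤ t l ∧ t l ≤ ((B * M : ℕ) : ℤ)) →
      ∀ l, N t l ≤ d * L * M := by
    intro t ht l
    have := ht l
    simp only [N]
    rw [← hB]
    omega
  have hpath : ∀ t, Relation.ReflTransGen (H812R5.GStep (B * M) c i) s t →
      (∀ l, 0 ≤ t l ∧ t l ≤ ((B * M : ℕ) : ℤ)) ∧
      Relation.ReflTransGen (fun u v => Good L u ∧ Good L v ∧ p u = p v ∧ j u = j v ∧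
        ∀ l, u l ≤ v l + 2 * L ∧ v l ≤ u l + 2 * L) (X (N s)) (X (N t)) := by
    intro t ht
    induction ht with
    | refl => exact ⟨hs, Relation.ReflTransGen.refl⟩
    | @tail a b _ h2 ih =>
      obtain ⟨ha, hchain⟩ := ih
      obtain ⟨hb, hab, hca, hcb⟩ := h2
      refine ⟨hb, hchain.tail ?_⟩
      have hba := hbox a ha
      have hbb := hbox b hb
      have hadj : ∀ l, N a l ≤ N b l + 1 ∧ N b l ≤ N a l + 1 := by
        intro l
        have h1 := hab l
        rw [abs_le] at h1
        have h2 := ha l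
        have h3 := hb l
        simp only [N]
        omega
      have hcc : ((p (X (N a))).1, j (X (N a))) = ((p (X (N b))).1, j (X (N b))) :=
        ι.injective (hca.trans hcb.symm)
      rw [Prod.mk.injEq] at hcc
      refine ⟨hX1 _ hba, hX1 _ hbb, hcomp _ _ hba hbb hadj hcc.1, hcc.2, fun l => ?_⟩
      have q1 := hX2 _ hba l
      have q2 := hX2 _ hbb l
      have z1 := zz_adj (M := M) hB0 (hadj l).1
      have z2 := zz_adj (M := M) hB0 (y := N b) (y' := N a) (l := l) (hadj l).2
      rw [← hB] at q1 q2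
      have m1 : L * (zz B M (N a) l + 1) ≤ L * (zz B M (N b) l + 1 + 1) :=
        Nat.mul_le_mul_left L (by omega)
      have m2 : L * (zz B M (N b) l + 1) ≤ L * (zz B M (N a) l + 1 + 1) :=
        Nat.mul_le_mul_left L (by omega)
      rw [Nat.mul_add L (zz B M (N a) l + 1), Nat.mul_add L (zz B M (N a) l)] at m2
      rw [Nat.mul_add L (zz B M (N b) l + 1), Nat.mul_add L (zz B M (N b) l)] at m1
      omega
  obtain ⟨_, hchain⟩ := hpath s' hrel
  have hbs := hbox s hs
  have hbs' := hbox s' hs'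
  refine ⟨i, X (N s), X (N s'), hX1 _ hbs, hX1 _ hbs', ?_, ?_, hchain⟩
  · have q := (hX2 _ hbs i).2
    have e : zz B M (N s) i = 0 := by
      simp only [zz, N, hsi]
      simp
    rw [← hB, e] at q
    simpa using q
  · have q := (hX2 _ hbs' i).1
    have e : zz B M (N s') i = M - 1 := by
      have e1 : N s' i = B * M := by
        simp only [N, hsi']
        rfl
      simp only [zz, e1]
      rw [Nat.mul_div_cancel_left _ hB0]
      omega
    rwa [← hB, e] at q

end H63LB
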