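import Mathlib
import Pool.Agent.H63WH.Lsd

set_option autoImplicit false

/-! The disjoint union of the two-skeleta of mesh `m` of the cubical lattices `ℤ^m`. -/

namespace H63LB

/-- Points: a dimension `m ≥ 2` and a vector of `ℤ^m` all of whose coordinates but at most two are
divisible by `m`. -/
@[ext] structure Pt where
  m : ℕ
  x : ℕ → ℤ
  hm : 2 ≤ m
  hx : ∀ i, m ≤ i → x i = 0
  hg : ∃ i j : ℕ, ∀ l, l ≠ i → l ≠ j → (m : ℤ) ∣ x l

/-- the maximum of the dimension and the absolute values of the coordinates -/
def nn (p : Pt) : ℕ := max p.m ((Finset.range p.m).sup fun i => (p.x i).natAbs)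

/-- the distance: the supremum distance within `ℤ^m`, and the maximum of the norms otherwise -/
def dN (p q : Pt) : ℕ :=
  if p.m = q.m then (Finset.range p.m).sup fun i => (p.x i - q.x i).natAbs else max (nn p) (nn q)

theorem dN_same_le {p q : Pt} (h : p.m = q.m) (c : ℕ) :
    dN p q ≤ c ↔ ∀ i, (p.x i - q.x i).natAbs ≤ c := by
  unfold dN
  rw [if_pos h, Finset.sup_le_iff]
  constructor
  · intro h' i
    by_cases hi : i < p.m
    · exact h' i (Finset.mem_range.2 hi)
    · rw [p.hx i (by omega), q.hx i (by omega)]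
      simp
  · exact fun h' i _ => h' i

theorem le_dN_same {p q : Pt} (h : p.m = q.m) (i : ℕ) : (p.x i - q.x i).natAbs ≤ dN p q :=
  (dN_same_le h _).1 le_rfl i

theorem nn_le {p : Pt} {c : ℕ} : nn p ≤ c ↔ p.m ≤ c ∧ ∀ i, (p.x i).natAbs ≤ c := by
  unfold nn
  rw [max_le_iff, Finset.sup_le_iff]
  constructor
  · rintro ⟨h1, h2⟩
    refine ⟨h1, fun i => ?_⟩
    by_cases hi : i < p.m
    · exact h2 i (Finset.mem_range.2 hi)
    · rw [p.hx i (by omega)]
      simp
  · exact fun h => ⟨h.1, fun i _ => h.2 i⟩

theorem m_le_nn (p : Pt) : p.m ≤ nn p := (nn_le.1 le_rfl).1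

theorem x_le_nn (p : Pt) (i : ℕ) : (p.x i).natAbs ≤ nn p := (nn_le.1 le_rfl).2 i

theorem dN_diff {p q : Pt} (h : p.m ≠ q.m) : dN p q = max (nn p) (nn q) := by
  unfold dN
  rw [if_neg h]

theorem dN_self (p : Pt) : dN p p = 0 := by
  refine Nat.le_zero.1 ((dN_same_le rfl 0).2 fun i => ?_)
  simp

theorem dN_comm (p q : Pt) : dN p q = dN q p := by
  by_cases h : p.m = q.m
  · refine le_antisymm ?_ ?_
    · rw [dN_same_le h]
      intro i
      have := le_dN_same h.symm i
      omega
    · rw [dN_same_le h.symm]
      intro i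
      have := le_dN_same h i
      omega
  · rw [dN_diff h, dN_diff (Ne.symm h), max_comm]

theorem dN_tri (p q s : Pt) : dN p s ≤ dN p q + dN q s := by
  by_cases h1 : p.m = q.m
  · by_cases h2 : q.m = s.m
    · rw [dN_same_le (h1.trans h2)]
      intro i
      have e1 := le_dN_same h1 i
      have e2 := le_dN_same h2 i
      omega
    · rw [dN_diff h2, dN_diff (fun h => h2 (h1.symm.trans h))]
      refine max_le ?_ ?_
      · rw [nn_le]
        have e3 := m_le_nn q
        refine ⟨by omega, fun i => ?_⟩
        have e1 := le_dN_same h1 i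
        have e2 := x_le_nn q i
        omega
      · omega
  · by_cases h2 : q.m = s.m
    · rw [dN_diff h1, dN_diff (fun h => h1 (h.trans h2.symm))]
      refine max_le ?_ ?_
      · omega
      · rw [nn_le]
        have e3 := m_le_nn q
        refine ⟨by omega, fun i => ?_⟩
        have e1 := le_dN_same h2 i
        have e2 := x_le_nn q i
        omega
    · rw [dN_diff h1, dN_diff h2]
      by_cases h3 : p.m = s.m
      · rw [dN_same_le h3]
        intro i
        have e1 := x_le_nn p i
        have e2 := x_le_nn s i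
        omega
      · rw [dN_diff h3]
        omega

theorem dN_eq_zero {p q : Pt} (h : dN p q = 0) : p = q := by
  by_cases hm : p.m = q.m
  · refine Pt.ext hm (funext fun i => ?_)
    have := le_dN_same hm i
    omega
  · rw [dN_diff hm] at h
    have h1 := m_le_nn p
    have h2 := p.hm
    omega

noncomputable instance : MetricSpace Pt where
  dist p q := (dN p q : ℝ)
  dist_self p := by rw [dN_self]; simp
  dist_comm p q := by rw [dN_comm]
  dist_triangle p q s := by exact_mod_cast dN_tri p q s
  eq_of_dist_eq_zero {p q} h := dN_eq_zero (by exact_mod_cast h)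

theorem dist_def (p q : Pt) : dist p q = (dN p q : ℝ) := rfl

end H63LB
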