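import Mathlib
import Pool.Agent.H63LB.Space
import Pool.Agent.H63LB.Comb

set_option autoImplicit false

/-! The space has no decomposition into two colours over a family of finite asymptotic
dimension. -/

namespace H63LB

open Set Metric H63WH

open Classical in
/-- the vectors with natural coordinates -/
noncomputable def emb (d : ℕ) (hd : 2 ≤ d) (x : Fin d → ℕ) : Pt :=
  if h : Good d x then
    { m := d
      x := fun i => if hi : i < d then (x ⟨i, hi⟩ : ℤ) else 0
      hm := hd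
      hx := fun i hi => dif_neg (by omega)
      hg := by
        obtain ⟨i, j, hij⟩ := h
        refine ⟨i, j, fun l h1 h2 => ?_⟩
        by_cases hl : l < d
        · rw [dif_pos hl]
          exact_mod_cast hij ⟨l, hl⟩ (fun e => h1 (by rw [← e])) (fun e => h2 (by rw [← e]))
        · rw [dif_neg hl]
          exact dvd_zero _ }
  else
    { m := d
      x := fun _ => 0
      hm := hd
      hx := fun _ _ => rfl
      hg := ⟨0, 0, fun _ _ _ => dvd_zero _⟩ }

theorem emb_m (d : ℕ) (hd : 2 ≤ d) (x : Fin d → ℕ) : (emb d hd x).m = d := by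
  unfold emb
  split_ifs <;> rfl

theorem emb_x {d : ℕ} (hd : 2 ≤ d) {x : Fin d → ℕ} (h : Good d x) (i : Fin d) :
    (emb d hd x).x i = x i := by
  unfold emb
  rw [dif_pos h]
  simp

theorem emb_dist_le {d : ℕ} (hd : 2 ≤ d) {x y : Fin d → ℕ} (hx : Good d x) (hy : Good d y)
    {c : ℕ} (h : ∀ l, x l ≤ y l + c ∧ y l ≤ x l + c) : dist (emb d hd x) (emb d hd y) ≤ c := by
  rw [dist_def]
  have hm : (emb d hd x).m = (emb d hd y).m := by rw [emb_m, emb_m]
  have : dN (emb d hd x) (emb d hd y) ≤ c := by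
    rw [dN_same_le hm]
    intro i
    by_cases hi : i < d
    · have e1 := emb_x hd hx ⟨i, hi⟩
      have e2 := emb_x hd hy ⟨i, hi⟩
      simp only at e1 e2
      rw [e1, e2]
      have := h ⟨i, hi⟩
      omega
    · rw [(emb d hd x).hx i (by rw [emb_m]; omega), (emb d hd y).hx i (by rw [emb_m]; omega)]
      simp
  exact_mod_cast this

theorem emb_dist_ge {d : ℕ} (hd : 2 ≤ d) {x y : Fin d → ℕ} (hx : Good d x) (hy : Good d y)
    (i : Fin d) : (y i : ℝ) - x i ≤ dist (emb d hd x) (emb d hd y) := by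
  rw [dist_def]
  have hm : (emb d hd x).m = (emb d hd y).m := by rw [emb_m, emb_m]
  have h1 := le_dN_same hm i
  rw [emb_x hd hx, emb_x hd hy] at h1
  have h2 : (y i : ℤ) - x i ≤ (dN (emb d hd x) (emb d hd y) : ℕ) := by omega
  exact_mod_cast h2

theorem lower {r : ℝ} (hr : 1 < r) {k : ℕ} {Y : Set (Set Pt)} (hY : ADim k Y) :
    ¬ Dec r {univ} Y := by
  classical
  intro hdec
  obtain ⟨B, hB, hBU⟩ := hdec univ rfl
  choose U hU1 hU2 hU3 using hBU
  -- the piece of a point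
  have hpt : ∀ q : Pt, ∃ κ : Fin 2, ∃ W ∈ U κ, q ∈ W := by
    intro q
    have : q ∈ ⋃ k, B k := hB ▸ mem_univ q
    obtain ⟨κ, hκ⟩ := mem_iUnion.1 this
    rw [← hU1 κ] at hκ
    obtain ⟨W, hW, hq⟩ := hκ
    exact ⟨κ, W, hW, hq⟩
  choose κ W hW hqW using hpt
  have hY1 := hY.mono (Nat.le_succ k)
  set d := 2 * (k + 1) with hd
  have hd2 : 2 ≤ d := by omega
  have hs : (0 : ℝ) < 2 * d + 1 := by positivity
  obtain ⟨D, hD⟩ := hY1 _ hs
  have hWY : ∀ q, W q ∈ Y := fun q => hU2 _ (hW q)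
  choose! C hC1 hC2 using hD
  have hC2' : ∀ A ∈ Y, ∀ i, ∃ V : Set (Set Pt), ⋃₀ V = C A i ∧ V ⊆ BD Pt D ∧
      ∀ P ∈ V, ∀ Q ∈ V, P ≠ Q → ∀ x ∈ P, ∀ y ∈ Q, (2 * d + 1 : ℝ) ≤ dist x y :=
    fun A hA i => hC2 A hA i
  choose! V hV1 hV2 hV3 using hC2'
  have hcol : ∀ q : Pt, ∃ i : Fin (k + 1), q ∈ C (W q) i := by
    intro q
    have : q ∈ ⋃ i, C (W q) i := hC1 _ (hWY q) ▸ hqW q
    exact mem_iUnion.1 this
  choose j hj using hcol
  have hpc : ∀ q : Pt, ∃ P ∈ V (W q) (j q), q ∈ P := by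
    intro q
    have := hj q
    rw [← hV1 _ (hWY q)] at this
    obtain ⟨P, hP, hq⟩ := this
    exact ⟨P, hP, hq⟩
  choose P hP hqP using hpc
  let e := emb d hd2
  let p : (Fin d → ℕ) → Bool × Set Pt := fun x => (decide (κ (e x) = 0), W (e x))
  have hκ : ∀ a b : Fin 2, decide (a = 0) = decide (b = 0) → a = b := by decide
  have hp : PCompat d p := by
    intro x y hx hy hxy hc
    have hc' : κ (e x) = κ (e y) := hκ _ _ hc
    have : W (e x) = W (e y) := by
      by_contra hne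
      have h1 := hW (e y)
      rw [← hc'] at h1
      have h2 := hU3 _ _ (hW (e x)) _ h1 hne _ (hqW (e x)) _ (hqW (e y))
      have h3 : dist (e x) (e y) ≤ ((1 : ℕ) : ℝ) := emb_dist_le hd2 hx hy hxy
      push_cast at h3
      linarith
    exact Prod.ext hc this
  set M := ⌈D⌉₊ + 3 with hM
  obtain ⟨i, x, x', hx, hx', hxi, hxi', hchain⟩ := comb (k := k + 1) (M := M) (d := d) (L := d)
    (by omega) (by omega) hd2 (by omega) hp (fun x => j (e x))
  have hmem : ∀ y, Relation.ReflTransGen (fun u v => Good d u ∧ Good d v ∧ p u = p v ∧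
      j (e u) = j (e v) ∧ ∀ l, u l ≤ v l + 2 * d ∧ v l ≤ u l + 2 * d) x y →
      P (e y) = P (e x) := by
    intro y hy
    induction hy with
    | refl => rfl
    | @tail a b _ h2 ih =>
      obtain ⟨ha, hb, hpab, hjab, hab⟩ := h2
      rw [← ih]
      by_contra hne
      have hWab : W (e a) = W (e b) := congrArg Prod.snd hpab
      have h1 := hP (e b)
      rw [← hWab, ← hjab] at h1
      have h3 := hV3 _ (hWY (e a)) _ _ h1 _ (hP (e a)) hne _ (hqP (e b)) _ (hqP (e a))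
      have h4 : dist (e b) (e a) ≤ ((2 * d : ℕ) : ℝ) :=
        emb_dist_le hd2 hb ha fun l => (hab l).symm
      push_cast at h4
      linarith
  have h5 := hmem x' hchain
  have h6 : dist (e x) (e x') ≤ D := by
    have := hV2 _ (hWY (e x)) _ (hP (e x))
    refine this _ (hqP (e x)) _ ?_
    rw [← h5]
    exact hqP (e x')
  have h7 := emb_dist_ge hd2 hx hx' i
  have h8 : D ≤ ⌈D⌉₊ := Nat.le_ceil D
  have h9 : ((⌈D⌉₊ + 1 : ℕ) : ℝ) ≤ (x' i : ℝ) - x i := by
    have : ⌈D⌉₊ + 1 + x i ≤ x' i := by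
      refine le_trans ?_ hxi'
      have e1 : M - 1 = ⌈D⌉₊ + 1 + 1 := by omega
      rw [e1, Nat.mul_add d, mul_one]
      have e2 : 1 * (⌈D⌉₊ + 1) ≤ d * (⌈D⌉₊ + 1) := Nat.mul_le_mul_right _ (by omega)
      omega
    have h10 : ((⌈D⌉₊ + 1 + x i : ℕ) : ℝ) ≤ x' i := by exact_mod_cast this
    push_cast at h10 ⊢
    linarith
  push_cast at h9
  have h11 : dist (e x) (e x') = dist (emb d hd2 x) (emb d hd2 x') := rfl
  linarith

end H63LB
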