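import Mathlib
import Pool.Agent.H63WH.Lsd

set_option autoImplicit false

/-! Sets with a coarse projection to `ℝ^ι` are large scale doubling. -/

namespace H63LB

open Set Metric H63WH

variable {X : Type*} [MetricSpace X]

/-- sets with a coarsely isometric projection to `ℝ^ι` -/
def Fm (X : Type*) [MetricSpace X] (ι : Type*) [Fintype ι] (c : ℝ) : Set (Set X) :=
  {W | ∃ π : X → ι → ℝ, ∀ x ∈ W, ∀ y ∈ W,
    dist x y ≤ max (dist (π x) (π y)) c ∧ dist (π x) (π y) ≤ dist x y}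

theorem lsd_fm (ι : Type*) [Fintype ι] {c : ℝ} (hc : 0 ≤ c) :
    LSD (8 ^ Fintype.card ι) (c + 1) (Fm X ι c) := by
  classical
  rintro W ⟨π, hπ⟩ x s hs
  have hs0 : 0 < s := by linarith
  by_cases hW : (W ∩ ball x (2 * s)).Nonempty
  · obtain ⟨x₀, hx₀, hx₀'⟩ := hW
    let idx : X → ι → ℤ := fun y i => ⌊(π y i - π x₀ i) / s⌋
    have hcard : Fintype.card (ι → Fin 8) = 8 ^ Fintype.card ι := by
      rw [Fintype.card_fun, Fintype.card_fin]
    let e : Fin (8 ^ Fintype.card ι) ≃ (ι → Fin 8) :=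
      (Fintype.equivFinOfCardEq hcard).symm
    let P : (ι → Fin 8) → X → Prop := fun a y =>
      (y ∈ W ∧ y ∈ ball x (2 * s)) ∧ ∀ i, idx y i = (a i : ℤ) - 4
    refine ⟨fun n => if h : ∃ y, P (e n) y then h.choose else x₀, ?_⟩
    rintro y ⟨hyW, hy⟩
    have hyx : dist y x₀ < 4 * s := by
      have h1 := dist_triangle_right y x₀ x
      rw [mem_ball] at hy hx₀'
      linarith
    have hbd : ∀ i, |π y i - π x₀ i| < 4 * s := by
      intro i
      have h1 : dist (π y i) (π x₀ i) ≤ dist (π y) (π x₀) := dist_le_pi_dist _ _ i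
      have h2 := (hπ y hyW x₀ hx₀).2
      rw [Real.dist_eq] at h1
      linarith
    have hidx : ∀ i, -4 ≤ idx y i ∧ idx y i < 4 := by
      intro i
      have h1 := abs_lt.1 (hbd i)
      constructor
      · rw [Int.le_floor, le_div_iff₀ hs0]
        push_cast
        linarith [h1.1]
      · rw [Int.floor_lt, div_lt_iff₀ hs0]
        push_cast
        linarith [h1.2]
    let a : ι → Fin 8 := fun i => ⟨(idx y i + 4).toNat, by have := hidx i; omega⟩
    have ha : P (e (e.symm a)) y := by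
      rw [Equiv.apply_symm_apply]
      refine ⟨⟨hyW, hy⟩, fun i => ?_⟩
      have := hidx i
      simp only [a]
      omega
    have hex : ∃ y, P (e (e.symm a)) y := ⟨y, ha⟩
    refine mem_iUnion.2 ⟨e.symm a, ?_⟩
    rw [mem_ball]
    simp only [dif_pos hex]
    obtain ⟨⟨h1, h2⟩, h3⟩ := hex.choose_spec
    set w := hex.choose
    have hlt : dist (π y) (π w) < s := by
      rw [dist_pi_lt_iff hs0]
      intro i
      have e1 : idx y i = idx w i := by rw [ha.2 i, h3 i]
      have e2 := Int.abs_sub_lt_one_of_floor_eq_floor e1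
      rw [← sub_div, sub_sub_sub_cancel_right, abs_div, abs_of_pos hs0, div_lt_one hs0] at e2
      rwa [Real.dist_eq]
    refine ((hπ y hyW w h1).1).trans_lt (max_lt hlt (by linarith))
  · rw [not_nonempty_iff_eq_empty] at hW
    refine ⟨fun _ => x, ?_⟩
    rw [hW]
    exact empty_subset _

theorem Fm.mono {ι : Type*} [Fintype ι] {c c' : ℝ} (h : c ≤ c') : Fm X ι c ⊆ Fm X ι c' := by
  rintro W ⟨π, hπ⟩
  exact ⟨π, fun x hx y hy => ⟨(hπ x hx y hy).1.trans (max_le_max_left _ h), (hπ x hx y hy).2⟩⟩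

/-- decomposition according to the values of a label -/
theorem rdisj_of_label {r : ℝ} {Y : Set (Set X)} {B : Set X} {β : Type*} (lab : X → β)
    (h1 : ∀ x ∈ B, ∀ y ∈ B, lab x ≠ lab y → r ≤ dist x y)
    (h2 : ∀ x ∈ B, {y | y ∈ B ∧ lab y = lab x} ∈ Y) : RDisj r Y B := by
  refine ⟨{W | ∃ x ∈ B, W = {y | y ∈ B ∧ lab y = lab x}}, ?_, ?_, ?_⟩
  · ext y
    rw [mem_sUnion]
    constructor
    · rintro ⟨W, ⟨x, _, rfl⟩, hy⟩
      exact hy.1
    · exact fun hy => ⟨_, ⟨y, hy, rfl⟩, hy, rfl⟩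
  · rintro _ ⟨x, hx, rfl⟩
    exact h2 x hx
  · rintro _ ⟨x, _, rfl⟩ _ ⟨x', _, rfl⟩ hne y hy y' hy'
    refine h1 y hy.1 y' hy'.1 fun he => hne ?_
    have : lab x = lab x' := by rw [← hy.2, he, hy'.2]
    rw [this]

end H63LB
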