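import Mathlib
import Pool.Agent.H63LB.Space
import Pool.Agent.H63LB.Proj

set_option autoImplicit false

/-! The decomposition of the space into three colours. -/

namespace H63LB

open Set Metric H63WH

theorem floor_cases {m a b : ℤ} (hm : 0 < m) (t : ℤ) :
    a + t = m * ((a + t) / m) + (a + t) % m ∧ 0 ≤ (a + t) % m ∧ (a + t) % m < m ∧
    b + t = m * ((b + t) / m) + (b + t) % m ∧ 0 ≤ (b + t) % m ∧ (b + t) % m < m ∧
    ((a + t) / m < (b + t) / m → m * ((a + t) / m) + m ≤ m * ((b + t) / m)) ∧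
    ((b + t) / m < (a + t) / m → m * ((b + t) / m) + m ≤ m * ((a + t) / m)) := by
  have key : ∀ u v : ℤ, u < v → m * u + m ≤ m * v := by
    intro u v h
    have : m * (u + 1) ≤ m * v := mul_le_mul_of_nonneg_left (by omega) hm.le
    linarith [mul_add m u 1, mul_one m]
  exact ⟨(Int.mul_ediv_add_emod _ _).symm, Int.emod_nonneg _ hm.ne', Int.emod_lt_of_pos _ hm,
    (Int.mul_ediv_add_emod _ _).symm, Int.emod_nonneg _ hm.ne', Int.emod_lt_of_pos _ hm,
    key _ _, key _ _⟩

/-- coordinates near multiples of `m` -/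
theorem sep_near {m s t a b : ℤ} (hs : 0 < s) (hm : 8 * s ≤ m) (ht : t ≤ 2 * s) (_ht0 : 0 ≤ t)
    (ha : (a + t) % m ≤ 2 * t) (hb : (b + t) % m ≤ 2 * t) (hne : (a + t) / m ≠ (b + t) / m) :
    s ≤ |a - b| := by
  obtain ⟨h1, h2, h3, h4, h5, h6, h7, h8⟩ := floor_cases (a := a) (b := b) (m := m) (by omega) t
  rcases lt_or_gt_of_ne hne with h | h
  · have := h7 h
    rw [abs_sub_comm]
    refine le_trans ?_ (le_abs_self _)
    omega
  · have := h8 h
    refine le_trans ?_ (le_abs_self _)
    omega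

theorem sep_far {m s a b : ℤ} (hs : 0 < s) (hm : 8 * s ≤ m)
    (ha : 2 * s < (a + s) % m) (hb : 2 * s < (b + s) % m) (hne : (a + s) / m ≠ (b + s) / m) :
    s ≤ |a - b| := by
  obtain ⟨h1, h2, h3, h4, h5, h6, h7, h8⟩ := floor_cases (a := a) (b := b) (m := m) (by omega) s
  rcases lt_or_gt_of_ne hne with h | h
  · have := h7 h
    rw [abs_sub_comm]
    refine le_trans ?_ (le_abs_self _)
    omega
  · have := h8 h
    refine le_trans ?_ (le_abs_self _)
    omega

/-- `a` is at distance more than `t'` from the multiples of `m`, `b` at distance at most `t`. -/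
theorem sep_mixed {m s t t' a b : ℤ} (hs : 0 < s) (hm : 8 * s ≤ m) (_ht0 : 0 ≤ t)
    (ht' : t + s ≤ t') (_ht2 : t' ≤ 2 * s)
    (ha : 2 * t' < (a + t') % m) (hb : ∃ k : ℤ, |b - m * k| ≤ t) : s ≤ |a - b| := by
  have hm0 : 0 < m := by omega
  obtain ⟨k, hk⟩ := hb
  have h1 : a + t' = m * ((a + t') / m) + (a + t') % m := (Int.mul_ediv_add_emod _ _).symm
  have h3 := Int.emod_lt_of_pos (a + t') hm0
  have key : ∀ u v : ℤ, u < v → m * u + m ≤ m * v := by
    intro u v h
    have : m * (u + 1) ≤ m * v := mul_le_mul_of_nonneg_left (by omega) hm0.le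
    linarith [mul_add m u 1, mul_one m]
  have key' : ∀ u v : ℤ, u ≤ v → m * u ≤ m * v := fun u v h => mul_le_mul_of_nonneg_left h hm0.le
  rw [abs_le] at hk
  rcases lt_or_ge ((a + t') / m) k with h | h
  · have := key _ _ h
    rw [abs_sub_comm]
    refine le_trans ?_ (le_abs_self _)
    omega
  · have := key' _ _ h
    refine le_trans ?_ (le_abs_self _)
    omega

theorem near_of_mod {m t b : ℤ} (hm : 0 < m) (h : (b + t) % m ≤ 2 * t) :
    ∃ k : ℤ, |b - m * k| ≤ t := by
  refine ⟨(b + t) / m, ?_⟩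
  have h1 : b + t = m * ((b + t) / m) + (b + t) % m := (Int.mul_ediv_add_emod _ _).symm
  have h2 := Int.emod_nonneg (b + t) hm.ne'
  rw [abs_le]
  omega

theorem mod_of_dvd {m t b : ℤ} (ht : 0 ≤ t) (hm : t < m) (h : m ∣ b) : (b + t) % m = t := by
  obtain ⟨k, rfl⟩ := h
  rw [add_comm, Int.add_mul_emod_self_left, Int.emod_eq_of_lt ht hm]

theorem far_of_far {m s a : ℤ} (hs : 0 < s) (hm : 8 * s ≤ m) (h : 4 * s < (a + 2 * s) % m) :
    2 * s < (a + s) % m := by
  have hm0 : 0 < m := by omega
  have h1 : a + 2 * s = m * ((a + 2 * s) / m) + (a + 2 * s) % m :=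
    (Int.mul_ediv_add_emod _ _).symm
  have h3 := Int.emod_lt_of_pos (a + 2 * s) hm0
  have h4 : a + s = m * ((a + 2 * s) / m) + ((a + 2 * s) % m - s) := by omega
  have h5 : (a + s) % m = (a + 2 * s) % m - s := by
    rw [h4, add_comm, Int.add_mul_emod_self_left]
    exact Int.emod_eq_of_lt (by omega) (by omega)
  omega

/-- the label of a point -/
noncomputable def lab (s t : ℕ) (p : Pt) : Option (ℕ × (ℕ → ℤ) × Set ℕ) := by
  classical
  exact if p.m < 8 * s then none
    else some (p.m, fun l => (p.x l + t) / p.m, {l | 2 * (t : ℤ) < (p.x l + t) % p.m})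

theorem lab_eq {s t : ℕ} {p q : Pt} (hp : ¬ p.m < 8 * s) (h : lab s t p = lab s t q) :
    ¬ q.m < 8 * s ∧ p.m = q.m ∧ (∀ l, (p.x l + t) / p.m = (q.x l + t) / q.m) ∧
    ∀ l, (2 * (t : ℤ) < (p.x l + t) % p.m ↔ 2 * (t : ℤ) < (q.x l + t) % q.m) := by
  unfold lab at h
  rw [if_neg hp] at h
  by_cases hq : q.m < 8 * s
  · rw [if_pos hq] at h
    exact absurd h (by simp)
  · rw [if_neg hq] at h
    simp only [Option.some.injEq, Prod.mk.injEq] at h
    exact ⟨hq, h.1, fun l => congrFun h.2.1 l, fun l => Set.ext_iff.1 h.2.2 l⟩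

theorem lab_none {s t : ℕ} {p : Pt} (hp : p.m < 8 * s) : lab s t p = none := by
  unfold lab
  rw [if_pos hp]

theorem lab_ne {s t : ℕ} {p q : Pt} (hp : ¬ p.m < 8 * s) (hq : ¬ q.m < 8 * s) (hm : p.m = q.m)
    (h : lab s t p ≠ lab s t q) : ∃ l, (p.x l + t) / (p.m : ℤ) ≠ (q.x l + t) / (p.m : ℤ) ∨
      ¬ (2 * (t : ℤ) < (p.x l + t) % p.m ↔ 2 * (t : ℤ) < (q.x l + t) % p.m) := by
  by_contra hno
  push Not at hno
  apply h
  unfold lab
  rw [if_neg hp, if_neg hq, ← hm]
  simp only [Option.some.injEq, Prod.mk.injEq, true_and]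
  exact ⟨funext fun l => (hno l).1, Set.ext fun l => (hno l).2⟩

/-- points of different or of small dimension -/
theorem sep_dim {s : ℕ} {p q : Pt} (hq : ¬ q.m < 8 * s) (hm : p.m ≠ q.m) : (s : ℝ) ≤ dist p q := by
  rw [dist_def, dN_diff hm]
  have := m_le_nn q
  exact_mod_cast (by omega : s ≤ max (nn p) (nn q))

theorem sep_coord {s : ℕ} {p q : Pt} (hm : p.m = q.m) {l : ℕ}
    (h : (s : ℤ) ≤ |p.x l - q.x l|) : (s : ℝ) ≤ dist p q := by
  rw [dist_def]
  have := le_dN_same hm l
  rw [Int.abs_eq_natAbs] at h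
  exact_mod_cast (by omega : s ≤ dN p q)

/-- colour 0 -/
def B0 (s : ℕ) : Set Pt := {p | p.m < 8 * s ∨ ∀ l, (p.x l + (2 * s : ℕ)) % p.m ≤ 2 * (2 * s : ℕ)}

/-- colour 1 -/
def B1 (s : ℕ) : Set Pt := {p | ¬ p.m < 8 * s ∧ ∀ l, (p.x l + (s : ℕ)) % p.m ≤ 2 * (s : ℕ) ∨
  2 * ((2 * s : ℕ) : ℤ) < (p.x l + (2 * s : ℕ)) % p.m}

/-- colour 2 -/
def B2 (s : ℕ) : Set Pt := {p | ¬ p.m < 8 * s ∧ ∀ l, (p.m : ℤ) ∣ p.x l ∨
  2 * (s : ℤ) < (p.x l + (s : ℕ)) % p.m}

theorem cover (s : ℕ) (hs : 0 < s) (p : Pt) : p ∈ B0 s ∨ p ∈ B1 s ∨ p ∈ B2 s := by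
  by_cases hp : p.m < 8 * s
  · exact Or.inl (Or.inl hp)
  obtain ⟨i, j, hij⟩ := p.hg
  have hm8 : (8 : ℤ) * s ≤ p.m := by omega
  have hd : ∀ t : ℕ, t ≤ 2 * s → ∀ l, (p.m : ℤ) ∣ p.x l → (p.x l + (t : ℕ)) % p.m ≤ 2 * (t : ℕ) := by
    intro t ht l hl
    rw [mod_of_dvd (by omega) (by omega) hl]
    omega
  -- a general argument with the two exceptional coordinates in any order
  have key : ∀ i j : ℕ, (∀ l, l ≠ i → l ≠ j → (p.m : ℤ) ∣ p.x l) →
      ¬ (p.x i + (2 * s : ℕ)) % p.m ≤ 2 * (2 * s : ℕ) → p ∈ B1 s ∨ p ∈ B2 s := by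
    intro i j hij hi
    rw [not_le] at hi
    by_cases hj : (p.x j + (s : ℕ)) % p.m ≤ 2 * (s : ℕ)
    · left
      refine ⟨hp, fun l => ?_⟩
      by_cases hli : l = i
      · subst hli
        exact Or.inr hi
      · left
        by_cases hlj : l = j
        · subst hlj
          exact hj
        · exact hd s (by omega) l (hij l hli hlj)
    · right
      rw [not_le] at hj
      refine ⟨hp, fun l => ?_⟩
      by_cases hlj : l = j
      · subst hlj
        exact Or.inr hj
      · by_cases hli : l = i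
        · subst hli
          right
          have := far_of_far (m := p.m) (s := s) (a := p.x l) (by omega) hm8 (by
            push_cast at hi
            omega)
          exact this
        · exact Or.inl (hij l hli hlj)
  by_cases h0 : ∀ l, (p.x l + (2 * s : ℕ)) % p.m ≤ 2 * (2 * s : ℕ)
  · exact Or.inl (Or.inr h0)
  · push Not at h0
    obtain ⟨l, hl⟩ := h0
    right
    by_cases hli : l = i
    · subst hli
      exact key l j hij (not_le.2 hl)
    · by_cases hlj : l = j
      · subst hlj
        exact key l i (fun a h1 h2 => hij a h2 h1) (not_le.2 hl)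
      · have := hd (2 * s) le_rfl l (hij l hli hlj)
        omega

/-- the pieces -/
theorem piece_fm {ι : Type*} [Fintype ι] [Nontrivial ι] {s t : ℕ} (hs : 0 < s) (ht : t ≤ 2 * s)
    {B : Set Pt} {p : Pt} (hp : ¬ p.m < 8 * s) :
    {q | q ∈ B ∧ lab s t q = lab s t p} ∈ Fm Pt ι (4 * s : ℕ) := by
  classical
  obtain ⟨i, j, hij⟩ := p.hg
  obtain ⟨a, b, hab⟩ := exists_pair_ne ι
  refine ⟨fun q u => if u = a then (q.x i : ℝ) else (q.x j : ℝ), ?_⟩
  rintro q ⟨_, hq⟩ q' ⟨_, hq'⟩
  obtain ⟨_, hm, h1, h2⟩ := lab_eq hp hq.symm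
  obtain ⟨_, hm', h1', h2'⟩ := lab_eq hp hq'.symm
  have hmm : q.m = q'.m := hm.symm.trans hm'
  have hm8 : (8 : ℤ) * s ≤ p.m := by omega
  constructor
  · rw [dist_def, le_max_iff]
    by_cases hc : dN q q' ≤ 4 * s
    · right
      exact_mod_cast hc
    · left
      -- the distance is attained at an exceptional coordinate
      have hex : ∃ l, dN q q' ≤ (q.x l - q'.x l).natAbs := by
        by_contra hno
        push Not at hno
        have : dN q q' ≤ dN q q' - 1 := (dN_same_le hmm _).2 fun l => by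
          have := hno l
          omega
        omega
      obtain ⟨l, hl⟩ := hex
      have hl2 : l = i ∨ l = j := by
        by_contra hno
        push Not at hno
        have hd := hij l hno.1 hno.2
        have e0 : (p.x l + t) % (p.m : ℤ) = t := mod_of_dvd (by omega) (by omega) hd
        have n1 : ¬ 2 * (t : ℤ) < (q.x l + t) % q.m := by
          rw [← h2 l, e0]
          omega
        have n2 : ¬ 2 * (t : ℤ) < (q'.x l + t) % q'.m := by
          rw [← h2' l, e0]
          omega
        have f1 := h1 l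
        have f2 := h1' l
        rw [← hm] at n1 f1
        rw [← hm'] at n2 f2
        have g1 : q.x l + t = (p.m : ℤ) * ((q.x l + t) / p.m) + (q.x l + t) % p.m :=
          (Int.mul_ediv_add_emod _ _).symm
        have g2 : q'.x l + t = (p.m : ℤ) * ((q'.x l + t) / p.m) + (q'.x l + t) % p.m :=
          (Int.mul_ediv_add_emod _ _).symm
        have g3 := Int.emod_nonneg (q.x l + t) (b := (p.m : ℤ)) (by omega)
        have g4 := Int.emod_nonneg (q'.x l + t) (b := (p.m : ℤ)) (by omega)
        rw [← f1] at g1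
        rw [← f2] at g2
        omega
      have hcast : (dN q q' : ℝ) ≤ |((q.x l : ℝ) - (q'.x l : ℝ))| := by
        have : ((dN q q' : ℕ) : ℤ) ≤ |q.x l - q'.x l| := by
          rw [Int.abs_eq_natAbs]
          exact_mod_cast hl
        exact_mod_cast this
      rcases hl2 with rfl | rfl
      · refine hcast.trans ?_
        have := dist_le_pi_dist (fun u => if u = a then (q.x l : ℝ) else (q.x j : ℝ))
          (fun u => if u = a then (q'.x l : ℝ) else (q'.x j : ℝ)) a
        simpa [Real.dist_eq] using this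
      · refine hcast.trans ?_
        have := dist_le_pi_dist (fun u => if u = a then (q.x i : ℝ) else (q.x l : ℝ))
          (fun u => if u = a then (q'.x i : ℝ) else (q'.x l : ℝ)) b
        simpa [Real.dist_eq, hab.symm] using this
  · rw [dist_pi_le_iff dist_nonneg]
    intro u
    have hco : ∀ l, dist ((q.x l : ℝ)) ((q'.x l : ℝ)) ≤ dist q q' := by
      intro l
      rw [dist_def, Real.dist_eq]
      have h3 := le_dN_same hmm l
      have : |q.x l - q'.x l| ≤ ((dN q q' : ℕ) : ℤ) := by
        rw [Int.abs_eq_natAbs]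
        exact_mod_cast h3
      exact_mod_cast this
    by_cases hu : u = a
    · simp only [if_pos hu]
      exact hco i
    · simp only [if_neg hu]
      exact hco j

/-- the points of small dimension -/
theorem small_fm (s : ℕ) (B : Set Pt) (t : ℕ) {p : Pt} (hp : p.m < 8 * s) :
    {q | q ∈ B ∧ lab s t q = lab s t p} ∈ Fm Pt (Fin (8 * s) × Fin (8 * s)) (8 * s : ℕ) := by
  classical
  refine ⟨fun q u => if q.m = u.1 then (q.x u.2 : ℝ) else 0, ?_⟩
  have hsm : ∀ q, lab s t q = lab s t p → q.m < 8 * s := by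
    intro q hq
    by_contra hno
    exact (lab_eq hno hq).1 hp
  rintro q ⟨_, hq⟩ q' ⟨_, hq'⟩
  have hqs := hsm q hq
  have hqs' := hsm q' hq'
  constructor
  · rw [dist_def, le_max_iff]
    by_contra hno
    push Not at hno
    obtain ⟨h1, h2⟩ := hno
    have h2' : 8 * s < dN q q' := by exact_mod_cast h2
    have hc : ∀ u : Fin (8 * s) × Fin (8 * s),
        |((if q.m = u.1 then (q.x u.2 : ℝ) else 0) - (if q'.m = u.1 then (q'.x u.2 : ℝ) else 0))|
          < dN q q' := by
      intro u
      refine lt_of_le_of_lt ?_ h1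
      have := dist_le_pi_dist (fun u : Fin (8 * s) × Fin (8 * s) =>
        if q.m = u.1 then (q.x u.2 : ℝ) else 0) (fun u => if q'.m = u.1 then (q'.x u.2 : ℝ) else 0) u
      rwa [Real.dist_eq] at this
    by_cases hm : q.m = q'.m
    · have : dN q q' ≤ dN q q' - 1 := (dN_same_le hm _).2 fun l => by
        by_cases hl : l < 8 * s
        · have h3 := hc (⟨q.m, hqs⟩, ⟨l, hl⟩)
          simp only [← hm, if_true] at h3
          have h4 : |q.x l - q'.x l| < ((dN q q' : ℕ) : ℤ) := by exact_mod_cast h3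
          rw [Int.abs_eq_natAbs] at h4
          omega
        · rw [q.hx l (by omega), q'.hx l (by omega)]
          simp
      omega
    · have h5 := dN_diff hm
      have h6 : nn q ≤ dN q q' - 1 := nn_le.2 ⟨by omega, fun l => by
        by_cases hl : l < 8 * s
        · have h3 := hc (⟨q.m, hqs⟩, ⟨l, hl⟩)
          simp only [if_true, if_neg (Ne.symm hm), sub_zero] at h3
          have h4 : |q.x l| < ((dN q q' : ℕ) : ℤ) := by exact_mod_cast h3
          rw [Int.abs_eq_natAbs] at h4
          omega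
        · rw [q.hx l (by omega)]
          simp⟩
      have h7 : nn q' ≤ dN q q' - 1 := nn_le.2 ⟨by omega, fun l => by
        by_cases hl : l < 8 * s
        · have h3 := hc (⟨q'.m, hqs'⟩, ⟨l, hl⟩)
          simp only [if_true, if_neg hm, zero_sub, abs_neg] at h3
          have h4 : |q'.x l| < ((dN q q' : ℕ) : ℤ) := by exact_mod_cast h3
          rw [Int.abs_eq_natAbs] at h4
          omega
        · rw [q'.hx l (by omega)]
          simp⟩
      omega
  · rw [dist_pi_le_iff dist_nonneg]
    intro u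
    rw [dist_def, Real.dist_eq]
    change |(if q.m = u.1 then (q.x u.2 : ℝ) else 0) -
      (if q'.m = u.1 then (q'.x u.2 : ℝ) else 0)| ≤ _
    by_cases hm : q.m = q'.m
    · rw [← hm]
      have h3 := le_dN_same hm u.2
      have h4 : |q.x u.2 - q'.x u.2| ≤ ((dN q q' : ℕ) : ℤ) := by
        rw [Int.abs_eq_natAbs]
        exact_mod_cast h3
      split_ifs
      · exact_mod_cast h4
      · simp
    · rw [dN_diff hm]
      have h3 := x_le_nn q u.2
      have h4 := x_le_nn q' u.2
      have h3' : |q.x u.2| ≤ ((max (nn q) (nn q') : ℕ) : ℤ) := by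
        rw [Int.abs_eq_natAbs]
        exact_mod_cast h3.trans (le_max_left _ _)
      have h4' : |q'.x u.2| ≤ ((max (nn q) (nn q') : ℕ) : ℤ) := by
        rw [Int.abs_eq_natAbs]
        exact_mod_cast h4.trans (le_max_right _ _)
      split_ifs with h6 h7
      · exact absurd (h6.trans h7.symm) hm
      · rw [sub_zero]
        exact_mod_cast h3'
      · rw [zero_sub, abs_neg]
        exact_mod_cast h4'
      · simp

theorem rdisj0 {s : ℕ} (hs : 0 < s) : RDisj (s : ℝ)
    (Fm Pt (Fin (8 * s) × Fin (8 * s)) (8 * s : ℕ)) (B0 s) := by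
  refine rdisj_of_label (lab s (2 * s)) ?_ ?_
  · intro p hp q hq hne
    by_cases hps : p.m < 8 * s
    · by_cases hqs : q.m < 8 * s
      · rw [lab_none hps, lab_none hqs] at hne
        exact absurd rfl hne
      · exact sep_dim hqs (by omega)
    · by_cases hm : p.m = q.m
      · have hqs : ¬ q.m < 8 * s := by omega
        have hp' := hp.resolve_left hps
        have hq' := hq.resolve_left hqs
        obtain ⟨l, hl | hl⟩ := lab_ne hps hqs hm hne
        · refine sep_coord hm (l := l) (sep_near (m := p.m) (t := (2 * s : ℕ)) (by omega) (by omega)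
            (by omega) (by omega) (hp' l) ?_ hl)
          have := hq' l
          rwa [← hm] at this
        · exfalso
          have h1 := hp' l
          have h2 := hq' l
          rw [← hm] at h2
          omega
      · rw [dist_comm]
        exact sep_dim hps (Ne.symm hm)
  · intro p _
    by_cases hps : p.m < 8 * s
    · exact small_fm s _ _ hps
    · have : Nontrivial (Fin (8 * s) × Fin (8 * s)) := by
        have h1 : Nontrivial (Fin (8 * s)) := Fin.nontrivial_iff_two_le.2 (by omega)
        have h2 : Nonempty (Fin (8 * s)) := ⟨⟨0, by omega⟩⟩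
        infer_instance
      exact Fm.mono (by exact_mod_cast (by omega : 4 * s ≤ 8 * s))
        (piece_fm (B := B0 s) hs (t := 2 * s) le_rfl hps)

theorem rdisj1_aux (ι : Type*) [Fintype ι] [Nontrivial ι] {s : ℕ} (hs : 0 < s) :
    RDisj (s : ℝ) (Fm Pt ι (4 * s : ℕ)) (B1 s) := by
  refine rdisj_of_label (lab s s) ?_ ?_
  · rintro p ⟨hps, hp⟩ q ⟨hqs, hq⟩ hne
    by_cases hm : p.m = q.m
    · obtain ⟨l, hl⟩ := lab_ne hps hqs hm hne
      have hm8 : (8 : ℤ) * s ≤ p.m := by omega
      have hm0 : (0 : ℤ) < p.m := by omega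
      have hpl := hp l
      have hql := hq l
      rw [← hm] at hql
      have hs0 : (0 : ℤ) < s := by omega
      have far : ∀ a : ℤ, 2 * ((2 * s : ℕ) : ℤ) < (a + (2 * s : ℕ)) % p.m →
          2 * (s : ℤ) < (a + s) % p.m := by
        intro a ha
        push_cast at ha
        exact far_of_far hs0 hm8 (by omega)
      refine sep_coord hm (l := l) ?_
      by_cases hp1 : (p.x l + (s : ℕ)) % p.m ≤ 2 * (s : ℕ)
      · by_cases hq1 : (q.x l + (s : ℕ)) % p.m ≤ 2 * (s : ℕ)
        · refine sep_near (m := p.m) (t := s) hs0 hm8 (by omega) (by omega) hp1 hq1 ?_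
          rcases hl with hl | hl
          · exact hl
          · exfalso
            apply hl
            constructor <;> intro h <;> omega
        · have hq2 := hql.resolve_left hq1
          rw [abs_sub_comm]
          exact sep_mixed (m := p.m) (t := s) (t' := (2 * s : ℕ)) hs0 hm8 (by omega)
            (by push_cast; omega) (by push_cast; omega) hq2 (near_of_mod hm0 hp1)
      · have hp2 := hpl.resolve_left hp1
        by_cases hq1 : (q.x l + (s : ℕ)) % p.m ≤ 2 * (s : ℕ)
        · exact sep_mixed (m := p.m) (t := s) (t' := (2 * s : ℕ)) hs0 hm8 (by omega)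
            (by push_cast; omega) (by push_cast; omega) hp2 (near_of_mod hm0 hq1)
        · have hq2 := hql.resolve_left hq1
          refine sep_far (m := p.m) hs0 hm8 (far _ hp2) (far _ hq2) ?_
          rcases hl with hl | hl
          · exact hl
          · exfalso
            apply hl
            constructor <;> intro h
            · exact far _ hq2
            · exact far _ hp2
    · exact sep_dim hqs hm
  · rintro p ⟨hps, _⟩
    exact piece_fm hs (by omega) hps

theorem rdisj1 {s : ℕ} (hs : 0 < s) : RDisj (s : ℝ) (Fm Pt (Fin 2) (4 * s : ℕ)) (B1 s) :=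
  rdisj1_aux (Fin 2) hs

theorem rdisj1' {s : ℕ} (hs : 0 < s) : RDisj (s : ℝ)
    (Fm Pt (Fin (8 * s) × Fin (8 * s)) (8 * s : ℕ)) (B1 s) := by
  have : Nontrivial (Fin (8 * s) × Fin (8 * s)) := by
    have h1 : Nontrivial (Fin (8 * s)) := Fin.nontrivial_iff_two_le.2 (by omega)
    have h2 : Nonempty (Fin (8 * s)) := ⟨⟨0, by omega⟩⟩
    infer_instance
  exact (rdisj1_aux (Fin (8 * s) × Fin (8 * s)) hs).mono
    (Fm.mono (by exact_mod_cast (by omega : 4 * s ≤ 8 * s)))

theorem rdisj2 {s : ℕ} (hs : 0 < s) : RDisj (s : ℝ)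
    (Fm Pt (Fin (8 * s) × Fin (8 * s)) (8 * s : ℕ)) (B2 s) := by
  refine rdisj_of_label (lab s s) ?_ ?_
  · rintro p ⟨hps, hp⟩ q ⟨hqs, hq⟩ hne
    by_cases hm : p.m = q.m
    · obtain ⟨l, hl⟩ := lab_ne hps hqs hm hne
      have hm8 : (8 : ℤ) * s ≤ p.m := by omega
      have hm0 : (0 : ℤ) < p.m := by omega
      have hpl := hp l
      have hql := hq l
      rw [← hm] at hql
      have hs0 : (0 : ℤ) < s := by omega
      have hdn : ∀ a : ℤ, (p.m : ℤ) ∣ a → (a + (s : ℕ)) % p.m ≤ 2 * (s : ℕ) := by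
        intro a ha
        rw [mod_of_dvd (by omega) (by omega) ha]
        omega
      have hdk : ∀ a : ℤ, (p.m : ℤ) ∣ a → ∃ k : ℤ, |a - p.m * k| ≤ 0 := by
        rintro a ⟨k, rfl⟩
        exact ⟨k, by simp⟩
      refine sep_coord hm (l := l) ?_
      rcases hpl with hp1 | hp1
      · rcases hql with hq1 | hq1
        · refine sep_near (m := p.m) (t := s) hs0 hm8 (by omega) (by omega) (hdn _ hp1)
            (hdn _ hq1) ?_
          rcases hl with hl | hl
          · exact hl
          · exfalso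
            apply hl
            have h1 := hdn _ hp1
            have h2 := hdn _ hq1
            constructor <;> intro h <;> omega
        · rw [abs_sub_comm]
          exact sep_mixed (m := p.m) (t := 0) (t' := s) hs0 hm8 le_rfl (by omega) (by omega)
            hq1 (hdk _ hp1)
      · rcases hql with hq1 | hq1
        · exact sep_mixed (m := p.m) (t := 0) (t' := s) hs0 hm8 le_rfl (by omega) (by omega)
            hp1 (hdk _ hq1)
        · refine sep_far (m := p.m) hs0 hm8 hp1 hq1 ?_
          rcases hl with hl | hl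
          · exact hl
          · exfalso
            apply hl
            exact ⟨fun _ => hq1, fun _ => hp1⟩
    · exact sep_dim hqs hm
  · rintro p ⟨hps, _⟩
    have : Nontrivial (Fin (8 * s) × Fin (8 * s)) := by
      have h1 : Nontrivial (Fin (8 * s)) := Fin.nontrivial_iff_two_le.2 (by omega)
      have h2 : Nonempty (Fin (8 * s)) := ⟨⟨0, by omega⟩⟩
      infer_instance
    exact Fm.mono (by exact_mod_cast (by omega : 4 * s ≤ 8 * s))
      (piece_fm (B := B2 s) hs (t := s) (by omega) hps)

end H63LB
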